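import Mathlib

/-!
Tournaments and Schütte's property `S_k`.
-/

namespace Pool.Agent.Schutte

/-- A tournament on the vertex type `V`: `Adj u v` means that the arc `u → v` is present. There
are no loops, and for every two distinct vertices exactly one of the two arcs is present. -/
structure Tournament (V : Type) where
  Adj : V → V → Prop
  loopless : ∀ v, ¬ Adj v v
  exactlyOne : ∀ u v, u ≠ v → (Adj u v ∧ ¬ Adj v u) ∨ (¬ Adj u v ∧ Adj v u)

/-- Property `S_k`: every set of exactly `k` vertices is dominated by some vertex. -/
def Tournament.HasS {V : Type} (T : Tournament V) (k : ℕ) : Prop :=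
  ∀ S : Finset V, S.card = k → ∃ v : V, ∀ w ∈ S, T.Adj v w

/-- `m k`: the smallest number `n ≥ k` of vertices of a tournament with property `S_k`. -/
noncomputable def m (k : ℕ) : ℕ :=
  sInf {n : ℕ | k ≤ n ∧ ∃ T : Tournament (Fin n), T.HasS k}

end Pool.Agent.Schutte
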