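import Pool.Agent.Schutte.Drt

/-!
No tournament on 51 vertices has the property that every set of at most 4 vertices is dominated.
-/

set_option linter.unusedSectionVars false
set_option linter.unusedVariables false

namespace Pool.Agent.Schutte

open Finset

variable {V : Type*} [DecidableEq V] [Fintype V] {a : V → V → ℤ}

structure S4 (a : V → V → ℤ) : Prop where
  t : Tour a
  card : Fintype.card V = 51
  dom : ∀ A : Finset V, A.card ≤ 4 → ∃ w, ∀ x ∈ A, a w x = 1

def Nin (a : V → V → ℤ) (v : V) : Finset V := univ.filter (fun u => a u v = 1)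
def Nin2 (a : V → V → ℤ) (x y : V) : Finset V := univ.filter (fun u => a u x = 1 ∧ a u y = 1)
def Nin3 (a : V → V → ℤ) (x y z : V) : Finset V :=
  univ.filter (fun u => a u x = 1 ∧ a u y = 1 ∧ a u z = 1)

lemma mem_Nin {v u : V} : u ∈ Nin a v ↔ a u v = 1 := by simp [Nin]
lemma mem_Nin2 {x y u : V} : u ∈ Nin2 a x y ↔ a u x = 1 ∧ a u y = 1 := by simp [Nin2]
lemma mem_Nin3 {x y z u : V} : u ∈ Nin3 a x y z ↔ a u x = 1 ∧ a u y = 1 ∧ a u z = 1 := by
  simp [Nin3]

lemma sum_Nin (h : Tour a) (v : V) (f : V → ℤ) : ∑ u ∈ Nin a v, f u = ∑ u, a u v * f u := by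
  unfold Nin
  rw [Finset.sum_filter]
  refine Finset.sum_congr rfl fun u _ => ?_
  rcases h.b u v with e | e <;> rw [e] <;> simp

lemma sum_Nin2 (h : Tour a) (x y : V) (f : V → ℤ) :
    ∑ u ∈ Nin2 a x y, f u = ∑ u, a u x * a u y * f u := by
  unfold Nin2
  rw [Finset.sum_filter]
  refine Finset.sum_congr rfl fun u _ => ?_
  rcases h.b u x with e | e <;> rcases h.b u y with e' | e' <;> rw [e, e'] <;> simp

lemma sum_Nin3 (h : Tour a) (x y z : V) (f : V → ℤ) :
    ∑ u ∈ Nin3 a x y z, f u = ∑ u, a u x * a u y * a u z * f u := by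
  unfold Nin3
  rw [Finset.sum_filter]
  refine Finset.sum_congr rfl fun u _ => ?_
  rcases h.b u x with e | e <;> rcases h.b u y with e' | e' <;> rcases h.b u z with e'' | e'' <;>
    rw [e, e', e''] <;> simp

lemma card_Nin (h : Tour a) (v : V) : ((Nin a v).card : ℤ) = D1 a v := by
  have := sum_Nin h v (fun _ => 1)
  simpa [D1] using this

lemma card_Nin2 (h : Tour a) (x y : V) : ((Nin2 a x y).card : ℤ) = D2 a x y := by
  have := sum_Nin2 h x y (fun _ => 1)
  simpa [D2] using this

lemma card_Nin3 (h : Tour a) (x y z : V) : ((Nin3 a x y z).card : ℤ) = D3 a x y z := by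
  have := sum_Nin3 h x y z (fun _ => 1)
  simpa [D3] using this

lemma sum_Nin_in (h : Tour a) (v x : V) : ∑ u ∈ Nin a v, a u x = D2 a v x := sum_Nin h v _

lemma sum_Nin2_in (h : Tour a) (v x u : V) : ∑ y ∈ Nin2 a v x, a y u = D3 a v x u :=
  sum_Nin2 h v x _

lemma D2_comm (x y : V) : D2 a x y = D2 a y x := by
  unfold D2; refine Finset.sum_congr rfl fun u _ => by ring

lemma Tour.ne_of (h : Tour a) {x y : V} (e : a x y = 1) : x ≠ y := by
  rintro rfl; rw [h.z] at e; norm_num at e

lemma Tour.rev (h : Tour a) {x y : V} (e : a x y = 1) : a y x = 0 := by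
  have := h.o x y (h.ne_of e); linarith

lemma S4.l3 (h : S4 a) (x y z : V) : 5 ≤ D3 a x y z := by
  by_contra hc
  push Not at hc
  rw [← card_Nin3 h.t] at hc
  have hc' : (Nin3 a x y z).card ≤ 4 := by omega
  obtain ⟨w, hw⟩ := h.dom _ hc'
  obtain ⟨v, hv⟩ := h.dom {x, y, z, w} (Finset.card_le_four)
  have h0 : v ∈ Nin3 a x y z := by
    rw [mem_Nin3]
    exact ⟨hv x (by simp), hv y (by simp), hv z (by simp)⟩
  have h1 := hw v h0
  have h2 := hv w (by simp)
  have := h.t.rev h1
  rw [h2] at this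
  norm_num at this

lemma S4.l2 (h : S4 a) (x y : V) : 11 ≤ D2 a x y := by
  have hne : (Nin2 a x y).Nonempty := by
    obtain ⟨w, hw⟩ := h.dom {x, y} ((Finset.card_le_two).trans (by norm_num))
    exact ⟨w, by rw [mem_Nin2]; exact ⟨hw x (by simp), hw y (by simp)⟩⟩
  have := h.t.card_ge (Nin2 a x y) hne 5 (fun z _ => by
    rw [sum_Nin2_in h.t]; exact h.l3 x y z)
  rw [card_Nin2 h.t] at this
  linarith

lemma S4.l1 (h : S4 a) (x : V) : 23 ≤ D1 a x := by
  have hne : (Nin a x).Nonempty := by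
    obtain ⟨w, hw⟩ := h.dom {x} (by simp)
    exact ⟨w, by rw [mem_Nin]; exact hw x (by simp)⟩
  have := h.t.card_ge (Nin a x) hne 11 (fun z _ => by
    rw [sum_Nin_in h.t]; exact h.l2 x z)
  rw [card_Nin h.t] at this
  linarith

lemma S4.out (h : S4 a) (x : V) : ∑ u, a x u = 50 - D1 a x := by
  have := h.t.in_add_out univ x (mem_univ x)
  rw [Finset.card_univ, h.card] at this
  unfold D1
  push_cast at this
  linarith

section pair

variable {p q : V}

lemma S4.cfg (h : S4 a) (hpq : p ≠ q) (h11 : D2 a p q = 11) :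
    Cfg a (Nin2 a p q) (univ \ {p, q}) where
  t := h.t
  sub := by
    intro x hx
    rw [mem_Nin2] at hx
    simp only [mem_sdiff, mem_univ, true_and, mem_insert, mem_singleton, not_or]
    exact ⟨h.t.ne_of hx.1, h.t.ne_of hx.2⟩
  hE := by
    have := card_Nin2 h.t p q
    rw [h11] at this
    exact_mod_cast this
  hU := by
    rw [Finset.card_sdiff_of_subset (Finset.subset_univ _), Finset.card_univ, h.card,
      Finset.card_pair hpq]
  h1 := fun u _ => by rw [sum_Nin2_in h.t]; exact h.l3 p q u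
  h3 := by
    intro x hx y hy z hz _ _ _
    rw [mem_Nin2] at hx hy hz
    have hD := h.l3 x y z
    have : ∑ u ∈ univ \ {p, q}, a u x * a u y * a u z = D3 a x y z := by
      unfold D3
      refine Finset.sum_subset (Finset.subset_univ _) fun u _ hu => ?_
      have hu' : u = p ∨ u = q := by
        by_contra hcon
        apply hu
        simp only [mem_sdiff, mem_univ, true_and, mem_insert, mem_singleton]
        exact hcon
      rcases hu' with rfl | rfl
      · rw [h.t.rev hx.1]; ring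
      · rw [h.t.rev hx.2]; ring
    rw [this]; exact hD

lemma S4.c1_eq (h : S4 a) (hpq : p ≠ q) (h11 : D2 a p q = 11) {x : V} (hx : x ∈ Nin2 a p q) :
    c1 a (univ \ {p, q}) x = D1 a x + 1 := by
  have hU := (h.cfg hpq h11).hU
  rw [mem_Nin2] at hx
  unfold c1 bb
  rw [Finset.sum_sub_distrib]
  have e1 : ∑ u ∈ univ \ {p, q}, a x u = ∑ u, a x u - 2 := by
    have := Finset.sum_sdiff (Finset.subset_univ ({p, q} : Finset V)) (f := fun u => a x u)
    rw [Finset.sum_pair hpq, hx.1, hx.2] at this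
    linarith
  rw [e1, h.out]
  simp only [Finset.sum_const, hU]
  norm_num
  ring

lemma S4.C1 (h : S4 a) (hpq : p ≠ q) (h11 : D2 a p q = 11) {x : V} (hx : x ∈ Nin2 a p q) :
    25 ≤ D1 a x := by
  have h1 := (h.cfg hpq h11).c1_ge hx
  rw [h.c1_eq hpq h11 hx] at h1
  linarith

lemma S4.C2 (h : S4 a) (hpq : p ≠ q) (h11 : D2 a p q = 11) :
    4 ≤ ∑ x ∈ Nin2 a p q, (D1 a x - 25) := by
  have h1 := (h.cfg hpq h11).sum_h
  have h2 := (h.cfg hpq h11).defi_le_four
  have h3 : ∑ x ∈ Nin2 a p q, (D1 a x - 25) =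
      ∑ x ∈ Nin2 a p q, (c1 a (univ \ {p, q}) x - 26) := by
    refine Finset.sum_congr rfl fun x hx => ?_
    rw [h.c1_eq hpq h11 hx]; ring
  rw [h3, h1]; linarith

lemma S4.C3 (h : S4 a) (hpq : p ≠ q) (h11 : D2 a p q = 11) :
    ∑ u ∈ univ \ {p, q}, (D3 a p q u - 5) ≤ 4 := by
  have c := h.cfg hpq h11
  have h2 := c.defi_le_four
  unfold defi at h2
  have : ∑ u ∈ univ \ {p, q}, (D3 a p q u - 5) =
      ∑ u ∈ univ \ {p, q}, (6 - kk a (Nin2 a p q) u) := by
    refine Finset.sum_congr rfl fun u _ => ?_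
    rw [c.kk_eq, sum_Nin2_in h.t]; ring
  rw [this]; exact h2

end pair

lemma S4.outI (h : S4 a) {v y : V} (hy : y ∈ Nin a v) :
    ∑ u ∈ Nin a v, a y u = D1 a v - 1 - D2 a v y := by
  have := h.t.in_add_out (Nin a v) y hy
  rw [sum_Nin_in h.t, card_Nin h.t] at this
  linarith

lemma S4.sumD2 (h : S4 a) (v : V) :
    2 * ∑ x ∈ Nin a v, D2 a v x = D1 a v * D1 a v - D1 a v := by
  have := h.t.arcs (Nin a v)
  rw [card_Nin h.t] at this
  rw [← this]
  congr 1
  refine Finset.sum_congr rfl fun x _ => ?_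
  rw [sum_Nin_in h.t]

lemma S4.lowA (h : S4 a) {v x : V} (hv : D1 a v = 24) (hx : x ∈ Nin a v) (h11 : D2 a v x = 11) :
    123 ≤ ∑ y ∈ Nin2 a v x, D2 a v y := by
  have hvx : v ≠ x := by
    rw [mem_Nin] at hx; exact (h.t.ne_of hx).symm
  have h1 : ∑ y ∈ Nin2 a v x, ∑ u ∈ Nin a v, a y u = 253 - ∑ y ∈ Nin2 a v x, D2 a v y := by
    have : ∀ y ∈ Nin2 a v x, ∑ u ∈ Nin a v, a y u = 23 - D2 a v y := by
      intro y hy
      rw [mem_Nin2] at hy
      rw [h.outI (mem_Nin.2 hy.1), hv]; ring
    rw [Finset.sum_congr rfl this, Finset.sum_sub_distrib]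
    have hE := (h.cfg hvx h11).hE
    simp [hE]
  have h2 : ∑ y ∈ Nin2 a v x, ∑ u ∈ Nin a v, a y u = ∑ u ∈ Nin a v, D3 a v x u := by
    rw [Finset.sum_comm]
    refine Finset.sum_congr rfl fun u _ => ?_
    rw [sum_Nin2_in h.t]
  have h3 : ∑ u ∈ Nin a v, D3 a v x u = 11 + ∑ u ∈ (Nin a v).erase x, D3 a v x u := by
    rw [← Finset.add_sum_erase _ _ hx, D3_xyy h.t, h11]
  have h4 : ∑ u ∈ (Nin a v).erase x, (D3 a v x u - 5) ≤ 4 := by
    refine le_trans ?_ (h.C3 hvx h11)
    refine Finset.sum_le_sum_of_subset_of_nonneg ?_ ?_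
    · intro u hu
      rw [Finset.mem_erase, mem_Nin] at hu
      simp only [mem_sdiff, mem_univ, true_and, mem_insert, mem_singleton, not_or]
      exact ⟨h.t.ne_of hu.2, hu.1⟩
    · intro u _ _
      have := h.l3 v x u; linarith
  rw [Finset.sum_sub_distrib] at h4
  have h5 : ((Nin a v).erase x).card = 23 := by
    rw [Finset.card_erase_of_mem hx]
    have := card_Nin h.t v
    rw [hv] at this
    have : (Nin a v).card = 24 := by exact_mod_cast this
    rw [this]
  simp only [Finset.sum_const, h5, nsmul_eq_mul] at h4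
  push_cast at h4
  linarith

/-- the set of `x ∈ D(v)` with `|D(v,x)| = 11` -/
def X11 (a : V → V → ℤ) (v : V) : Finset V := (Nin a v).filter (fun x => D2 a v x = 11)

lemma mem_X11 {v x : V} : x ∈ X11 a v ↔ a x v = 1 ∧ D2 a v x = 11 := by
  unfold X11; rw [Finset.mem_filter, mem_Nin]

lemma S4.low_X (h : S4 a) {v y x : V} (hy : D1 a y ≤ 24) (hx : x ∈ X11 a v) (hyv : a y v = 1)
    (hxy : x ≠ y) : x ∈ Nin2 a v y := by
  rw [mem_X11] at hx
  rw [mem_Nin2]
  refine ⟨hx.1, ?_⟩
  rcases h.t.b y x with e | e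
  · have := h.t.o x y hxy; linarith
  · exfalso
    have hvx : v ≠ x := (h.t.ne_of hx.1).symm
    have : y ∈ Nin2 a v x := by rw [mem_Nin2]; exact ⟨hyv, e⟩
    have := h.C1 hvx hx.2 this
    linarith

/-- lower bound for the number of `x` with `r x = 0` -/
lemma S4.cardX (h : S4 a) {v y : V} (hv : D1 a v = 24) (hyv : a y v = 1) :
    (12 : ℤ) ≤ (X11 a v).card ∧ (y ∉ X11 a v → D2 a v y ≤ (X11 a v).card) := by
  have h1 := h.sumD2 v
  rw [hv] at h1
  have hc : ((Nin a v).card : ℤ) = 24 := by rw [card_Nin h.t, hv]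
  have h2 : ∑ x ∈ Nin a v, (D2 a v x - 11) = 12 := by
    rw [Finset.sum_sub_distrib]; simp [hc]; linarith
  have hsplit : ((Nin a v).card : ℤ) = (X11 a v).card +
      ((Nin a v).filter (fun x => ¬ D2 a v x = 11)).card := by
    have := Finset.card_filter_add_card_filter_not (s := Nin a v) (fun x => D2 a v x = 11)
    unfold X11
    exact_mod_cast this.symm
  have h3 : ∑ x ∈ (Nin a v).filter (fun x => ¬ D2 a v x = 11), (D2 a v x - 11) = 12 := by
    rw [← h2, ← Finset.sum_filter_add_sum_filter_not (Nin a v) (fun x => D2 a v x = 11)]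
    have : ∑ x ∈ (Nin a v).filter (fun x => D2 a v x = 11), (D2 a v x - 11) = 0 := by
      refine Finset.sum_eq_zero fun x hx => ?_
      rw [Finset.mem_filter] at hx
      rw [hx.2]; norm_num
    rw [this]; ring
  have h4 : ∀ x ∈ (Nin a v).filter (fun x => ¬ D2 a v x = 11), 1 ≤ D2 a v x - 11 := by
    intro x hx
    rw [Finset.mem_filter] at hx
    have := h.l2 v x
    have := hx.2
    omega
  constructor
  · have := Finset.card_nsmul_le_sum _ _ 1 h4
    rw [h3] at this
    simp at this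
    omega
  · intro hy
    have hy' : y ∈ (Nin a v).filter (fun x => ¬ D2 a v x = 11) := by
      rw [Finset.mem_filter, mem_Nin]
      refine ⟨hyv, fun e => hy ?_⟩
      rw [mem_X11]; exact ⟨hyv, e⟩
    rw [← Finset.add_sum_erase _ _ hy'] at h3
    have := Finset.card_nsmul_le_sum (((Nin a v).filter (fun x => ¬ D2 a v x = 11)).erase y)
      (fun x => D2 a v x - 11) 1 (fun x hx => h4 x (Finset.mem_of_mem_erase hx))
    rw [Finset.card_erase_of_mem hy'] at this
    have hpos : 0 < ((Nin a v).filter (fun x => ¬ D2 a v x = 11)).card :=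
      Finset.card_pos.2 ⟨y, hy'⟩
    simp only [nsmul_eq_mul, mul_one] at this
    omega

lemma S4.lowB1 (h : S4 a) {v y : V} (hv : D1 a v = 24) (hyv : a y v = 1) (hy : D1 a y ≤ 24) :
    y ∉ X11 a v ∧ X11 a v = Nin2 a v y := by
  have h1 := h.cardX hv hyv
  have hyX : y ∉ X11 a v := by
    intro hyX
    have hsub : (X11 a v).erase y ⊆ Nin2 a v y := by
      intro x hx
      rw [Finset.mem_erase] at hx
      exact h.low_X hy hx.2 hyv hx.1
    have hyX' := hyX
    rw [mem_X11] at hyX'
    have hcard : (Nin2 a v y).card = 11 := by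
      have := card_Nin2 h.t v y
      rw [hyX'.2] at this
      exact_mod_cast this
    have heq : (X11 a v).erase y = Nin2 a v y := by
      apply Finset.eq_of_subset_of_card_le hsub
      rw [hcard, Finset.card_erase_of_mem hyX]
      have := h1.1
      omega
    have h2 := h.lowA hv (mem_Nin.2 hyv) hyX'.2
    have h3 : ∑ z ∈ Nin2 a v y, D2 a v z = ∑ z ∈ Nin2 a v y, 11 := by
      refine Finset.sum_congr rfl fun z hz => ?_
      rw [← heq] at hz
      have := Finset.mem_of_mem_erase hz
      rw [mem_X11] at this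
      exact this.2
    rw [h3] at h2
    simp [hcard] at h2
  refine ⟨hyX, ?_⟩
  apply Finset.eq_of_subset_of_card_le
  · intro x hx
    refine h.low_X hy hx hyv ?_
    rintro rfl; exact hyX hx
  · have := h1.2 hyX
    rw [← card_Nin2 h.t] at this
    exact_mod_cast this

lemma S4.lowB (h : S4 a) {v y y' : V} (hv : D1 a v = 24) (hyv : a y v = 1) (hy : D1 a y ≤ 24)
    (hyv' : a y' v = 1) (hy' : D1 a y' ≤ 24) : y = y' := by
  by_contra hne
  obtain ⟨h1, h2⟩ := h.lowB1 hv hyv hy
  obtain ⟨h3, h4⟩ := h.lowB1 hv hyv' hy'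
  have e1 : a y y' = 0 := by
    rcases h.t.b y y' with e | e
    · exact e
    · exfalso; apply h1; rw [h4, mem_Nin2]; exact ⟨hyv, e⟩
  have e2 : a y' y = 0 := by
    rcases h.t.b y' y with e | e
    · exact e
    · exfalso; apply h3; rw [h2, mem_Nin2]; exact ⟨hyv', e⟩
  have := h.t.o y y' hne
  linarith

lemma S4.lowC (h : S4 a) {v y : V} (hv : D1 a v = 23) (hyv : a y v = 1) (hy : D1 a y ≤ 24) :
    False := by
  have h1 := h.sumD2 v
  rw [hv] at h1
  have hc : ((Nin a v).card : ℤ) = 23 := by rw [card_Nin h.t, hv]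
  have h2 : ∑ x ∈ Nin a v, (D2 a v x - 11) = 0 := by
    rw [Finset.sum_sub_distrib]; simp [hc]; linarith
  have h3 : ∀ x ∈ Nin a v, D2 a v x - 11 = 0 := by
    rw [← Finset.sum_eq_zero_iff_of_nonneg]
    · exact h2
    · intro x _; have := h.l2 v x; linarith
  have h4 := h.outI (mem_Nin.2 hyv)
  have h5 := h3 y (mem_Nin.2 hyv)
  rw [hv] at h4
  have h6 : ∑ u ∈ Nin a v, a y u = 11 := by linarith
  obtain ⟨x, hx, hx2⟩ : ∃ x ∈ Nin a v, a y x = 1 := by
    by_contra hcon
    push Not at hcon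
    have : ∑ u ∈ Nin a v, a y u = 0 := by
      refine Finset.sum_eq_zero fun u hu => ?_
      rcases h.t.b y u with e | e
      · exact e
      · exact absurd e (hcon u hu)
    rw [this] at h6; norm_num at h6
  have h7 := h3 x hx
  rw [mem_Nin] at hx
  have := h.C1 (h.t.ne_of hx).symm (by linarith) (mem_Nin2.2 ⟨hyv, hx2⟩)
  linarith

theorem S4.false (h : S4 a) : False := by
  set L : Finset V := univ.filter (fun v => D1 a v ≤ 24) with hL
  have memL : ∀ v, v ∈ L ↔ D1 a v ≤ 24 := fun v => by simp [hL]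
  -- each low vertex has few low in-neighbours
  have hin : ∀ v ∈ L, ∑ y ∈ L, a y v ≤ D1 a v - 23 := by
    intro v hv
    rw [memL] at hv
    have h23 := h.l1 v
    have hcase : D1 a v = 23 ∨ D1 a v = 24 := by omega
    rcases hcase with e | e
    · rw [e]
      apply le_of_eq
      norm_num
      refine Finset.sum_eq_zero fun y hy => ?_
      rw [memL] at hy
      rcases h.t.b y v with e' | e'
      · exact e'
      · exact absurd (h.lowC e e' hy) (by simp)
    · rw [e]
      by_cases hex : ∃ y ∈ L, a y v = 1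
      · obtain ⟨y, hy, hyv⟩ := hex
        rw [← Finset.add_sum_erase L _ hy, hyv]
        have : ∑ x ∈ L.erase y, a x v = 0 := by
          refine Finset.sum_eq_zero fun x hx => ?_
          rw [Finset.mem_erase, memL] at hx
          rw [memL] at hy
          rcases h.t.b x v with e' | e'
          · exact e'
          · exact absurd (h.lowB e e' hx.2 hyv hy) hx.1
        rw [this]; norm_num
      · push Not at hex
        have : ∑ x ∈ L, a x v = 0 := by
          refine Finset.sum_eq_zero fun x hx => ?_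
          rcases h.t.b x v with e' | e'
          · exact e'
          · exact absurd e' (hex x hx)
        rw [this]; norm_num
  have harcs := h.t.arcs L
  have h1 : ∑ v ∈ L, ∑ y ∈ L, a y v ≤ ∑ v ∈ L, (D1 a v - 23) := Finset.sum_le_sum hin
  have h2 : ∑ v ∈ L, (25 - D1 a v) + ∑ v ∈ L, (D1 a v - 23) = 2 * L.card := by
    rw [← Finset.sum_add_distrib]
    simp
    ring
  have h3 : ∑ v ∈ L, (25 - D1 a v) ≤ 3 := by
    have : 2 * ∑ v ∈ L, (25 - D1 a v) ≤ 5 * (L.card : ℤ) - L.card * L.card := by linarith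
    have h4 : (5 * (L.card : ℤ) - L.card * L.card) ≤ 6 := by
      have hc : (0 : ℤ) ≤ L.card := by positivity
      generalize (L.card : ℤ) = l at hc
      by_cases h5 : l ≤ 5
      · interval_cases l <;> norm_num
      · push Not at h5; nlinarith
    linarith
  have hall : ∑ v, (D1 a v - 25) = 0 := by
    have := h.t.arcs univ
    rw [Finset.card_univ, h.card] at this
    rw [Finset.sum_sub_distrib]
    unfold D1
    simp [h.card]
    push_cast at this
    linarith
  have hsplit : ∑ v, (D1 a v - 25) = ∑ v ∈ univ \ L, (D1 a v - 25) + ∑ v ∈ L, (D1 a v - 25) :=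
    (Finset.sum_sdiff (Finset.subset_univ L)).symm
  have h5 : ∑ v ∈ L, (D1 a v - 25) = - ∑ v ∈ L, (25 - D1 a v) := by
    rw [← Finset.sum_neg_distrib]
    refine Finset.sum_congr rfl fun v _ => by ring
  have h6 : ∑ v ∈ univ \ L, (D1 a v - 25) ≤ 3 := by linarith
  -- no pair has exactly 11 common dominators
  have h7 : ∀ p q, p ≠ q → 12 ≤ D2 a p q := by
    intro p q hpq
    by_contra hc
    have h11 : D2 a p q = 11 := by
      have := h.l2 p q; omega
    have h8 := h.C2 hpq h11
    have h9 : ∑ x ∈ Nin2 a p q, (D1 a x - 25) ≤ ∑ v ∈ univ \ L, (D1 a v - 25) := by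
      refine Finset.sum_le_sum_of_subset_of_nonneg ?_ ?_
      · intro x hx
        have := h.C1 hpq h11 hx
        simp only [mem_sdiff, mem_univ, true_and, memL]
        linarith
      · intro x hx _
        simp only [mem_sdiff, mem_univ, true_and, memL] at hx
        linarith
    linarith
  have h8 : ∀ x, 25 ≤ D1 a x := by
    intro x
    have hne : (Nin a x).Nonempty := by
      obtain ⟨w, hw⟩ := h.dom {x} (by simp)
      exact ⟨w, by rw [mem_Nin]; exact hw x (by simp)⟩
    have := h.t.card_ge (Nin a x) hne 12 (fun z hz => by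
      rw [sum_Nin_in h.t]
      rw [mem_Nin] at hz
      exact h7 x z (h.t.ne_of hz).symm)
    rw [card_Nin h.t] at this
    linarith
  have h9 : ∀ x, D1 a x = 25 := by
    have : ∀ x ∈ (univ : Finset V), D1 a x - 25 = 0 := by
      rw [← Finset.sum_eq_zero_iff_of_nonneg]
      · exact hall
      · intro x _; have := h8 x; linarith
    intro x
    have := this x (mem_univ x)
    linarith
  have h10 : ∀ v x, a x v = 1 → D2 a v x = 12 := by
    intro v
    have hs := h.sumD2 v
    rw [h9] at hs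
    have hc : ((Nin a v).card : ℤ) = 25 := by rw [card_Nin h.t, h9]
    have h2 : ∑ x ∈ Nin a v, (D2 a v x - 12) = 0 := by
      rw [Finset.sum_sub_distrib]; simp [hc]; linarith
    have h3 : ∀ x ∈ Nin a v, D2 a v x - 12 = 0 := by
      rw [← Finset.sum_eq_zero_iff_of_nonneg]
      · exact h2
      · intro x hx
        rw [mem_Nin] at hx
        have := h7 v x (h.t.ne_of hx).symm; linarith
    intro x hx
    have := h3 x (mem_Nin.2 hx)
    linarith
  have hd : Drt a := by
    refine ⟨h.t, h.card, h9, ?_⟩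
    intro x y hxy
    rcases h.t.b x y with e | e
    · have : a y x = 1 := by have := h.t.o x y hxy; linarith
      exact h10 x y this
    · rw [D2_comm]; exact h10 y x e
  exact hd.false (fun x y z _ _ _ => h.l3 x y z)

end Pool.Agent.Schutte
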