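import Pool.Agent.Schutte.Key

/-!
A doubly regular tournament on 51 vertices has a triple with at most 4 common dominators.
-/

set_option linter.unusedSectionVars false
set_option linter.unusedVariables false

namespace Pool.Agent.Schutte

open Finset

variable {V : Type*} [DecidableEq V] [Fintype V] {a : V → V → ℤ}

def D1 (a : V → V → ℤ) (x : V) : ℤ := ∑ u, a u x
def D2 (a : V → V → ℤ) (x y : V) : ℤ := ∑ u, a u x * a u y
def D3 (a : V → V → ℤ) (x y z : V) : ℤ := ∑ u, a u x * a u y * a u z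
def N3 (a : V → V → ℤ) (x y z : V) : ℤ := ∑ u, a x u * a y u * a z u
/-- `w → x → c, c'` -/
def M3 (a : V → V → ℤ) (w c d : V) : ℤ := ∑ x, a w x * a x c * a x d

def nd (x y z : V) : ℤ := if x ≠ y ∧ x ≠ z ∧ y ≠ z then 1 else 0

lemma nd_eq (x y z : V) : nd x y z = 1 - (if x = y then 1 else 0) - (if x = z then 1 else 0)
    - (if y = z then 1 else 0) + 2 * (if x = y then (if x = z then 1 else 0) else 0) := by
  unfold nd
  by_cases h1 : x = y
  · subst h1
    by_cases h2 : x = z
    · subst h2; simp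
    · simp [h2]
  · by_cases h2 : x = z
    · subst h2
      simp [h1, Ne.symm h1]
    · by_cases h3 : y = z
      · subst h3; simp [h1]
      · simp [h1, h2, h3]

lemma sum_nd (F : V → V → V → ℤ) :
    ∑ x, ∑ y, ∑ z, nd x y z * F x y z = ∑ x, ∑ y, ∑ z, F x y z - ∑ x, ∑ z, F x x z
      - ∑ x, ∑ y, F x y x - ∑ x, ∑ y, F x y y + 2 * ∑ x, F x x x := by
  have e : ∀ x y z, nd x y z * F x y z = F x y z - (if x = y then F x y z else 0)
    - (if x = z then F x y z else 0) - (if y = z then F x y z else 0)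
    + 2 * (if x = y then (if x = z then F x y z else 0) else 0) := by
    intro x y z
    rw [nd_eq]
    split_ifs <;> ring
  simp_rw [e, Finset.sum_add_distrib, Finset.sum_sub_distrib, ← Finset.mul_sum]
  have e1 : ∀ x, ∑ y, ∑ z, (if x = y then F x y z else 0) = ∑ z, F x x z := by
    intro x
    rw [Finset.sum_comm]
    refine Finset.sum_congr rfl fun z _ => ?_
    simp
  have e2 : ∀ x y, ∑ z, (if x = z then F x y z else 0) = F x y x := by
    intro x y; simp
  have e3 : ∀ x y, ∑ z, (if y = z then F x y z else 0) = F x y y := by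
    intro x y; simp
  have e4 : ∀ x, ∑ y, ∑ z, (if x = y then (if x = z then F x y z else 0) else 0) = F x x x := by
    intro x
    have : ∀ y, ∑ z, (if x = y then (if x = z then F x y z else 0) else 0)
        = if x = y then F x y x else 0 := by
      intro y
      by_cases h : x = y
      · simp [h]
      · simp [h]
    simp_rw [this]
    simp
  simp_rw [e1, e2, e3, e4]

/-- doubly regular, order 51 -/
structure Drt (a : V → V → ℤ) : Prop where
  t : Tour a
  card : Fintype.card V = 51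
  reg : ∀ x, D1 a x = 25
  dbl : ∀ x y, x ≠ y → D2 a x y = 12

lemma Drt.dcase (h : Drt a) (x y : V) : D2 a x y = if x = y then 25 else 12 := by
  by_cases e : x = y
  · subst e
    rw [if_pos rfl]
    have := h.reg x
    unfold D1 at this; unfold D2
    simp_rw [h.t.sq]; exact this
  · rw [if_neg e]; exact h.dbl x y e

lemma Tour.flip (h : Tour a) (u v : V) : a u v = 1 - (if u = v then 1 else 0) - a v u := by
  by_cases e : u = v
  · subst e; simp [h.z]
  · rw [if_neg e]; have := h.o u v e; linarith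

lemma Drt.out (h : Drt a) (x : V) : ∑ u, a x u = 25 := by
  have h1 : ∑ u, a x u = ∑ u, (1 - (if x = u then (1:ℤ) else 0) - a u x) :=
    Finset.sum_congr rfl fun u _ => h.t.flip x u
  rw [h1, Finset.sum_sub_distrib, Finset.sum_sub_distrib]
  have := h.reg x
  unfold D1 at this
  rw [this]
  simp [h.card]

lemma Drt.n2 (h : Drt a) (u v : V) : ∑ x, a u x * a v x = if u = v then 25 else 12 := by
  have h1 : ∀ x, a u x * a v x = (1 - (if u = x then (1:ℤ) else 0) - a x u) *
      (1 - (if v = x then (1:ℤ) else 0) - a x v) := fun x => by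
    rw [← h.t.flip u x, ← h.t.flip v x]
  have h2 : ∀ x, (1 - (if u = x then (1:ℤ) else 0) - a x u) *
      (1 - (if v = x then (1:ℤ) else 0) - a x v) =
      1 - (if v = x then (1:ℤ) else 0) - a x v - (if u = x then (1:ℤ) else 0)
      + (if u = x then (if v = x then (1:ℤ) else 0) else 0)
      + (if u = x then a x v else 0) - a x u + (if v = x then a x u else 0) + a x u * a x v := by
    intro x
    split_ifs <;> ring
  simp_rw [h1, h2, Finset.sum_add_distrib, Finset.sum_sub_distrib, Finset.sum_add_distrib,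
    Finset.sum_sub_distrib]
  have r1 := h.reg u
  have r2 := h.reg v
  have r3 := h.dcase u v
  unfold D1 at r1 r2
  unfold D2 at r3
  rw [r1, r2, r3]
  simp only [Finset.sum_ite_eq, Finset.mem_univ, if_true]
  by_cases e : u = v
  · subst e; simp [h.t.z, h.card]
  · have := h.t.o u v e
    simp only [Finset.sum_const, Finset.card_univ, h.card, e, Ne.symm e, if_false]
    norm_num
    linarith

lemma Drt.p2 (h : Drt a) (w c : V) : ∑ x, a w x * a x c = if w = c then 0 else 13 - a w c := by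
  have h1 : ∀ x, a w x * a x c = a x c - (if w = x then a x c else 0) - a x w * a x c := fun x => by
    rw [h.t.flip w x]
    split_ifs <;> ring
  simp_rw [h1, Finset.sum_sub_distrib]
  have r1 := h.reg c
  have r3 := h.dcase w c
  unfold D1 at r1
  unfold D2 at r3
  rw [r1, r3]
  simp only [Finset.sum_ite_eq, Finset.mem_univ, if_true]
  by_cases e : w = c
  · subst e; simp [h.t.z]
  · simp [e]; ring

lemma swap3 (F : V → V → V → V → ℤ) :
    ∑ x, ∑ y, ∑ z, ∑ u, F x y z u = ∑ u, ∑ x, ∑ y, ∑ z, F x y z u := by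
  have e1 : ∀ x y, ∑ z, ∑ u, F x y z u = ∑ u, ∑ z, F x y z u := fun x y => Finset.sum_comm
  simp_rw [e1]
  have e2 : ∀ x, ∑ y, ∑ u, ∑ z, F x y z u = ∑ u, ∑ y, ∑ z, F x y z u := fun x => Finset.sum_comm
  simp_rw [e2]
  exact Finset.sum_comm

lemma prod3 (f g k : V → ℤ) :
    ∑ x, ∑ y, ∑ z, f x * g y * k z = (∑ x, f x) * (∑ y, g y) * (∑ z, k z) := by
  rw [Finset.sum_mul_sum, Finset.sum_mul]
  refine Finset.sum_congr rfl fun x _ => ?_
  rw [Finset.sum_mul]
  refine Finset.sum_congr rfl fun y _ => ?_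
  rw [Finset.mul_sum]

lemma Drt.s1 (h : Drt a) : ∑ x, ∑ y, ∑ z, D3 a x y z = 51 * 25 ^ 3 := by
  unfold D3
  rw [swap3]
  have : ∀ u, ∑ x, ∑ y, ∑ z, a u x * a u y * a u z = 25 ^ 3 := by
    intro u
    rw [prod3, h.out]; norm_num
  simp_rw [this]
  simp [h.card]

lemma Drt.s2 (h : Drt a) : ∑ x, ∑ y, ∑ z, D3 a x y z * D3 a x y z
    = 51 * 25 ^ 3 + 51 * 50 * 12 ^ 3 := by
  unfold D3
  simp_rw [Finset.sum_mul_sum]
  have e1 := swap3 (fun x y z u : V => ∑ v, a u x * a u y * a u z * (a v x * a v y * a v z))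
  rw [e1]
  have e2 : ∀ u, ∑ x, ∑ y, ∑ z, ∑ v, a u x * a u y * a u z * (a v x * a v y * a v z) =
      ∑ v, if u = v then 25 ^ 3 else 12 ^ 3 := by
    intro u
    rw [swap3]
    refine Finset.sum_congr rfl fun v _ => ?_
    have : ∀ x y z, a u x * a u y * a u z * (a v x * a v y * a v z) =
      (a u x * a v x) * (a u y * a v y) * (a u z * a v z) := fun x y z => by ring
    simp_rw [this]
    rw [prod3, h.n2]
    split_ifs <;> norm_num
  simp_rw [e2]
  have e3 : ∀ u : V, (∑ v : V, if u = v then (25 : ℤ) ^ 3 else 12 ^ 3) =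
      25 ^ 3 + 50 * 12 ^ 3 := by
    intro u
    have : ∀ v, (if u = v then (25 : ℤ) ^ 3 else 12 ^ 3) =
      12 ^ 3 + (if u = v then (25 : ℤ) ^ 3 - 12 ^ 3 else 0) := by
      intro v; split_ifs <;> ring
    simp_rw [this, Finset.sum_add_distrib]
    simp [h.card]
  simp_rw [e3]
  simp [h.card]

lemma Drt.s3 (h : Drt a) : ∑ x, ∑ y, ∑ z, D3 a x y z * (N3 a x y z * N3 a x y z)
    = ∑ w, ∑ c, ∑ d, M3 a w c d ^ 3 := by
  unfold D3 N3 M3
  simp_rw [Finset.sum_mul_sum, Finset.mul_sum]
  rw [swap3 (fun x y z u : V => ∑ v, ∑ v', a u x * a u y * a u z *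
    (a x v * a y v * a z v * (a x v' * a y v' * a z v')))]
  refine Finset.sum_congr rfl fun w _ => ?_
  rw [swap3 (fun x y z u : V => ∑ v', a w x * a w y * a w z *
    (a x u * a y u * a z u * (a x v' * a y v' * a z v')))]
  refine Finset.sum_congr rfl fun c _ => ?_
  rw [swap3 (fun x y z u : V => a w x * a w y * a w z *
    (a x c * a y c * a z c * (a x u * a y u * a z u)))]
  refine Finset.sum_congr rfl fun d _ => ?_
  have : ∀ x y z, a w x * a w y * a w z *
    (a x c * a y c * a z c * (a x d * a y d * a z d)) =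
    (a w x * a x c * a x d) * (a w y * a y c * a y d) * (a w z * a z c * a z d) :=
    fun x y z => by ring
  simp_rw [this]
  rw [prod3]; ring

lemma Drt.s4 (h : Drt a) : ∑ x, ∑ y, ∑ z, a x y * a x z * D3 a x y z = 51 * 25 * 144 := by
  unfold D3
  simp_rw [Finset.mul_sum]
  rw [swap3]
  have e1 : ∀ u, ∑ x, ∑ y, ∑ z, a x y * a x z * (a u x * a u y * a u z) = 25 * 144 := by
    intro u
    have : ∀ x, ∑ y, ∑ z, a x y * a x z * (a u x * a u y * a u z) = a u x * 144 := by
      intro x
      have e : ∀ y z, a x y * a x z * (a u x * a u y * a u z) =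
        a u x * ((a x y * a u y) * (a x z * a u z)) := fun y z => by ring
      simp_rw [e, ← Finset.mul_sum, ← Finset.sum_mul, h.n2]
      by_cases e : x = u
      · subst e; rw [h.t.z]; simp
      · rw [if_neg e]; ring
    simp_rw [this]
    rw [← Finset.sum_mul, h.out]
  simp_rw [e1]
  simp [h.card]

lemma Drt.s5 (h : Drt a) : ∑ x, ∑ y, ∑ z, a x y * a x z = 51 * 625 := by
  simp_rw [← Finset.mul_sum, h.out, ← Finset.sum_mul, h.out]
  simp [h.card]

lemma D3_xxz (h : Tour a) (x z : V) : D3 a x x z = D2 a x z := by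
  unfold D3 D2; simp_rw [h.sq]

lemma D3_xyx (h : Tour a) (x y : V) : D3 a x y x = D2 a x y := by
  unfold D3 D2
  refine Finset.sum_congr rfl fun u _ => ?_
  have := h.sq u x
  linear_combination (a u y) * this

lemma D3_xyy (h : Tour a) (x y : V) : D3 a x y y = D2 a x y := by
  unfold D3 D2
  refine Finset.sum_congr rfl fun u _ => ?_
  have := h.sq u y
  linear_combination (a u x) * this

lemma N3_xxz (h : Tour a) (x z : V) : N3 a x x z = ∑ u, a x u * a z u := by
  unfold N3; simp_rw [h.sq]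

lemma N3_xyx (h : Tour a) (x y : V) : N3 a x y x = ∑ u, a x u * a y u := by
  unfold N3
  refine Finset.sum_congr rfl fun u _ => ?_
  have := h.sq x u
  linear_combination (a y u) * this

lemma N3_xyy (h : Tour a) (x y : V) : N3 a x y y = ∑ u, a x u * a y u := by
  unfold N3
  refine Finset.sum_congr rfl fun u _ => ?_
  have := h.sq y u
  linear_combination (a x u) * this

lemma Drt.sum_ite (h : Drt a) (A B : ℤ) :
    ∑ x : V, ∑ y : V, (if x = y then A else B) = 51 * A + 2550 * B := by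
  have : ∀ x : V, ∑ y : V, (if x = y then A else B) = A + 50 * B := by
    intro x
    have e : ∀ y, (if x = y then A else B) = B + (if x = y then A - B else 0) := by
      intro y; split_ifs <;> ring
    simp_rw [e, Finset.sum_add_distrib]
    simp [h.card]; ring
  simp_rw [this]
  simp [h.card]; ring

lemma Drt.D3_xxx (h : Drt a) (x : V) : D3 a x x x = 25 := by
  rw [D3_xxz h.t, h.dcase, if_pos rfl]

lemma Drt.N3_xxx (h : Drt a) (x : V) : N3 a x x x = 25 := by
  rw [N3_xxz h.t, h.n2, if_pos rfl]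

lemma Drt.t0 (h : Drt a) : ∑ x : V, ∑ y : V, ∑ z : V, nd x y z = 124950 := by
  have := sum_nd (fun _ _ _ : V => (1 : ℤ))
  simp only [mul_one] at this
  rw [this]
  simp [h.card]

lemma Drt.t1 (h : Drt a) : ∑ x, ∑ y, ∑ z, nd x y z * D3 a x y z = 703800 := by
  rw [sum_nd, h.s1]
  simp_rw [D3_xxz h.t, D3_xyx h.t, D3_xyy h.t, h.dcase, h.sum_ite]
  simp [h.card]

lemma Drt.t2 (h : Drt a) : ∑ x, ∑ y, ∑ z, nd x y z * (D3 a x y z * D3 a x y z) =
    51 * 15625 + 2550 * 1728 - 3 * (51 * 625 + 2550 * 144) + 2 * 51 * 625 := by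
  rw [sum_nd, h.s2]
  simp_rw [D3_xxz h.t, D3_xyx h.t, D3_xyy h.t, h.dcase]
  have e : ∀ x y : V, ((if x = y then 25 else 12) * (if x = y then 25 else 12) : ℤ) =
    if x = y then 625 else 144 := by intro x y; split_ifs <;> norm_num
  simp_rw [e, h.sum_ite]
  simp [h.card]

lemma Drt.t4 (h : Drt a) : ∑ x, ∑ y, ∑ z, nd x y z * (a x y * a x z * D3 a x y z) =
    51 * 25 * 144 - 51 * 25 * 12 := by
  rw [sum_nd, h.s4]
  simp_rw [h.t.z, D3_xyy h.t, h.t.sq]
  simp only [zero_mul, mul_zero, Finset.sum_const_zero, sub_zero, add_zero]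
  have : ∑ x, ∑ y, a x y * D2 a x y = 51 * 25 * 12 := by
    have e : ∀ x y, a x y * D2 a x y = a x y * 12 := by
      intro x y
      rw [h.dcase]
      by_cases e : x = y
      · subst e; rw [h.t.z]; simp
      · rw [if_neg e]
    simp_rw [e, ← Finset.sum_mul, h.out]
    simp [h.card]
  rw [this]

lemma Drt.t5 (h : Drt a) : ∑ x, ∑ y, ∑ z, nd x y z * (a x y * a x z) = 51 * 625 - 51 * 25 := by
  rw [sum_nd, h.s5]
  simp_rw [h.t.z, h.t.sq, h.out]
  simp [h.card]

lemma Drt.t3 (h : Drt a) :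
    ∑ x, ∑ y, ∑ z, nd x y z * (D3 a x y z * (N3 a x y z * N3 a x y z))
      - ∑ x, ∑ y, ∑ z, nd x y z * M3 a x y z ^ 3 = -9011700 := by
  rw [sum_nd, sum_nd, h.s3]
  simp_rw [D3_xxz h.t, D3_xyx h.t, D3_xyy h.t, N3_xxz h.t, N3_xyx h.t, N3_xyy h.t, h.dcase, h.n2]
  have e : ∀ x y : V, ((if x = y then 25 else 12) * ((if x = y then 25 else 12) *
      (if x = y then 25 else 12)) : ℤ) = if x = y then 15625 else 1728 := by
    intro x y; split_ifs <;> norm_num
  simp_rw [e, h.sum_ite]
  have m1 : ∀ x z, M3 a x x z = 0 := by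
    intro x z
    unfold M3
    refine Finset.sum_eq_zero fun u _ => ?_
    rcases h.t.b x u with e | e
    · rw [e]; ring
    · have : a u x = 0 := by
        have hne : x ≠ u := by intro he; subst he; rw [h.t.z] at e; norm_num at e
        have := h.t.o x u hne; linarith
      rw [this]; ring
  have m2 : ∀ x y, M3 a x y x = 0 := by
    intro x y
    rw [← m1 x y]
    unfold M3
    refine Finset.sum_congr rfl fun u _ => by ring
  have m3 : ∀ x y, M3 a x y y = if x = y then 0 else 13 - a x y := by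
    intro x y
    rw [← h.p2]
    unfold M3
    refine Finset.sum_congr rfl fun u _ => ?_
    have := h.t.sq u y
    linear_combination (a x u) * this
  have m4 : ∀ x y, M3 a x y y ^ 3 = (if x = y then 0 else 2197) - 469 * a x y := by
    intro x y
    rw [m3]
    by_cases e : x = y
    · subst e; simp [h.t.z]
    · rw [if_neg e, if_neg e]
      rcases h.t.b x y with p | p <;> rw [p] <;> norm_num
  simp_rw [m1, m2, m4, Finset.sum_sub_distrib, h.sum_ite, ← Finset.mul_sum, h.out]
  simp [h.card]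
  ring

lemma nd_ne {x y z : V} (h : nd x y z ≠ 0) : x ≠ y ∧ x ≠ z ∧ y ≠ z := by
  unfold nd at h
  by_contra hc
  rw [if_neg hc] at h
  exact h rfl

lemma nd_nonneg (x y z : V) : 0 ≤ nd x y z := by
  unfold nd; split_ifs <;> norm_num

lemma Drt.n3 (h : Drt a) {x y z : V} (hxy : x ≠ y) (hxz : x ≠ z) (hyz : y ≠ z) :
    N3 a x y z = 12 - tr a x y z - D3 a x y z := by
  have e : ∀ u, a x u * a y u * a z u = 1 - a u x - a u y - a u z + a u x * a u y + a u x * a u z
      + a u y * a u z - a u x * a u y * a u z - (if x = u then (1 - a u y) * (1 - a u z) else 0)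
      - (if y = u then (1 - a u x) * (1 - a u z) else 0)
      - (if z = u then (1 - a u x) * (1 - a u y) else 0) := by
    intro u
    rw [h.t.flip x u, h.t.flip y u, h.t.flip z u]
    by_cases e1 : x = u
    · subst e1
      simp [Ne.symm hxy, Ne.symm hxz, h.t.z]; ring
    · by_cases e2 : y = u
      · subst e2
        simp [hxy, Ne.symm hyz, h.t.z]; ring
      · by_cases e3 : z = u
        · subst e3
          simp [hxz, hyz, h.t.z]; ring
        · simp [e1, e2, e3]; ring
  unfold N3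
  simp_rw [e, Finset.sum_sub_distrib, Finset.sum_add_distrib, Finset.sum_sub_distrib]
  have r1 := h.reg x
  have r2 := h.reg y
  have r3 := h.reg z
  have d1 := h.dbl x y hxy
  have d2 := h.dbl x z hxz
  have d3 := h.dbl y z hyz
  unfold D1 at r1 r2 r3
  unfold D2 at d1 d2 d3
  rw [r1, r2, r3, d1, d2, d3]
  simp only [Finset.sum_ite_eq, Finset.mem_univ, if_true]
  have t1 : (1 - a x y) * (1 - a x z) + (1 - a y x) * (1 - a y z) + (1 - a z x) * (1 - a z y)
      = tr a x y z := by
    have e1 : a y x = 1 - a x y := by have := h.t.o x y hxy; linarith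
    have e2 : a z x = 1 - a x z := by have := h.t.o x z hxz; linarith
    have e3 : a z y = 1 - a y z := by have := h.t.o y z hyz; linarith
    unfold tr
    rw [e1, e2, e3]
    rcases h.t.b x y with p | p <;> rcases h.t.b x z with q | q <;> rcases h.t.b y z with s | s <;>
      rw [p, q, s] <;> norm_num
  rw [← t1]
  unfold D3
  simp [h.card]
  ring

lemma Drt.m3 (h : Drt a) {x y z : V} (hyz : y ≠ z) :
    M3 a x y z = 12 - a x y * a x z - D3 a x y z := by
  have e : ∀ u, a x u * a u y * a u z = a u y * a u z - (if x = u then a u y * a u z else 0)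
      - a u x * a u y * a u z := by
    intro u
    rw [h.t.flip x u]
    split_ifs <;> ring
  unfold M3
  simp_rw [e, Finset.sum_sub_distrib]
  have d3 := h.dbl y z hyz
  unfold D2 at d3
  rw [d3]
  simp only [Finset.sum_ite_eq, Finset.mem_univ, if_true]
  rfl

lemma D3_swap12 (x y z : V) : D3 a y x z = D3 a x y z := by
  unfold D3; refine Finset.sum_congr rfl fun u _ => by ring

lemma D3_rot (x y z : V) : D3 a y z x = D3 a x y z := by
  unfold D3; refine Finset.sum_congr rfl fun u _ => by ring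

lemma nd_swap12 (x y z : V) : nd y x z = nd x y z := by
  unfold nd; congr 1; apply propext; constructor <;> (rintro ⟨p, q, r⟩; exact ⟨Ne.symm p, r, q⟩)

lemma nd_rot (x y z : V) : nd y z x = nd x y z := by
  unfold nd; congr 1; apply propext; constructor
  · rintro ⟨p, q, r⟩; exact ⟨Ne.symm q, Ne.symm r, p⟩
  · rintro ⟨p, q, r⟩; exact ⟨r, Ne.symm p, Ne.symm q⟩

lemma sum_tr_eq (F : ℤ → ℤ) :
    ∑ x, ∑ y, ∑ z, nd x y z * (tr a x y z * F (D3 a x y z)) =
    3 * ∑ x, ∑ y, ∑ z, nd x y z * (a x y * a x z * F (D3 a x y z)) := by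
  have e : ∀ x y z, nd x y z * (tr a x y z * F (D3 a x y z)) =
      nd x y z * (a x y * a x z * F (D3 a x y z)) + nd x y z * (a y x * a y z * F (D3 a x y z))
      + nd x y z * (a z x * a z y * F (D3 a x y z)) := by
    intro x y z; unfold tr; ring
  simp_rw [e, Finset.sum_add_distrib]
  have e1 : ∑ x, ∑ y, ∑ z, nd x y z * (a y x * a y z * F (D3 a x y z)) =
      ∑ x, ∑ y, ∑ z, nd x y z * (a x y * a x z * F (D3 a x y z)) := by
    rw [Finset.sum_comm]
    refine Finset.sum_congr rfl fun x _ => Finset.sum_congr rfl fun y _ =>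
      Finset.sum_congr rfl fun z _ => ?_
    rw [nd_swap12, D3_swap12]
  have e2 : ∑ x, ∑ y, ∑ z, nd x y z * (a z x * a z y * F (D3 a x y z)) =
      ∑ x, ∑ y, ∑ z, nd x y z * (a x y * a x z * F (D3 a x y z)) := by
    have : ∀ x, ∑ y, ∑ z, nd x y z * (a z x * a z y * F (D3 a x y z)) =
      ∑ z, ∑ y, nd x y z * (a z x * a z y * F (D3 a x y z)) := fun x => Finset.sum_comm
    simp_rw [this]
    rw [Finset.sum_comm]
    refine Finset.sum_congr rfl fun z _ => Finset.sum_congr rfl fun x _ =>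
      Finset.sum_congr rfl fun y _ => ?_
    rw [nd_rot z x y, D3_rot z x y]
  rw [e1, e2]; ring

lemma sum_lin3 (F G : V → V → V → ℤ) (c d : ℤ) :
    ∑ x, ∑ y, ∑ z, (c * F x y z + d * G x y z) =
      c * (∑ x, ∑ y, ∑ z, F x y z) + d * (∑ x, ∑ y, ∑ z, G x y z) := by
  simp_rw [Finset.sum_add_distrib, ← Finset.mul_sum]

theorem Drt.false (h : Drt a)
    (h3 : ∀ x y z, x ≠ y → x ≠ z → y ≠ z → 5 ≤ D3 a x y z) : False := by
  -- the main identity
  have I1 := h.t3
  have P1 : ∀ x y z, nd x y z * (D3 a x y z * (N3 a x y z * N3 a x y z)) =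
      nd x y z * (D3 a x y z * (12 - D3 a x y z) ^ 2)
      - nd x y z * (tr a x y z * (D3 a x y z * (23 - 2 * D3 a x y z))) := by
    intro x y z
    by_cases hn : nd x y z = 0
    · rw [hn]; ring
    · obtain ⟨hxy, hxz, hyz⟩ := nd_ne hn
      rw [h.n3 hxy hxz hyz]
      have ht : tr a x y z * tr a x y z = tr a x y z := by
        have e1 : a y x = 1 - a x y := by have := h.t.o x y hxy; linarith
        have e2 : a z x = 1 - a x z := by have := h.t.o x z hxz; linarith
        have e3 : a z y = 1 - a y z := by have := h.t.o y z hyz; linarith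
        unfold tr
        rw [e1, e2, e3]
        rcases h.t.b x y with p | p <;> rcases h.t.b x z with q | q <;>
          rcases h.t.b y z with s | s <;> rw [p, q, s] <;> norm_num
      linear_combination (nd x y z * D3 a x y z) * ht
  have P2 : ∀ x y z, nd x y z * M3 a x y z ^ 3 = nd x y z * (12 - D3 a x y z) ^ 3
      - nd x y z * (a x y * a x z * (3 * (12 - D3 a x y z) ^ 2 - 3 * (12 - D3 a x y z) + 1)) := by
    intro x y z
    by_cases hn : nd x y z = 0
    · rw [hn]; ring
    · obtain ⟨hxy, hxz, hyz⟩ := nd_ne hn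
      rw [h.m3 hyz]
      rcases h.t.b x y with p | p <;> rcases h.t.b x z with q | q <;> rw [p, q] <;> ring
  simp_rw [P1, P2, Finset.sum_sub_distrib] at I1
  rw [sum_tr_eq (a := a) (fun D => D * (23 - 2 * D))] at I1
  have A0 := h.t0
  have A1 := h.t1
  have A2 := h.t2
  have B0 := h.t5
  have B1 := h.t4
  -- final nonnegativity
  have hpos : 0 ≤ ∑ x, ∑ y, ∑ z, (nd x y z * (2 * D3 a x y z ^ 3 - 39 * D3 a x y z ^ 2
      + 250 * D3 a x y z - 525)
      + nd x y z * (tr a x y z * (3 * D3 a x y z ^ 2 - 36 * D3 a x y z + 105))) := by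
    refine Finset.sum_nonneg fun x _ => Finset.sum_nonneg fun y _ => Finset.sum_nonneg fun z _ => ?_
    by_cases hn : nd x y z = 0
    · rw [hn]; simp
    · obtain ⟨hxy, hxz, hyz⟩ := nd_ne hn
      have hD := h3 x y z hxy hxz hyz
      obtain ⟨δ, hδ⟩ : ∃ δ, D3 a x y z = δ + 5 := ⟨D3 a x y z - 5, by ring⟩
      have hδ0 : 0 ≤ δ := by linarith
      have ht : tr a x y z = 0 ∨ tr a x y z = 1 := by
        have e1 : a y x = 1 - a x y := by have := h.t.o x y hxy; linarith
        have e2 : a z x = 1 - a x z := by have := h.t.o x z hxz; linarith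
        have e3 : a z y = 1 - a y z := by have := h.t.o y z hyz; linarith
        unfold tr
        rw [e1, e2, e3]
        rcases h.t.b x y with p | p <;> rcases h.t.b x z with q | q <;>
          rcases h.t.b y z with s | s <;> rw [p, q, s] <;> norm_num
      rw [← mul_add]
      refine mul_nonneg (nd_nonneg x y z) ?_
      rw [hδ]
      rcases ht with e | e <;> rw [e]
      · have : 2 * (δ + 5) ^ 3 - 39 * (δ + 5) ^ 2 + 250 * (δ + 5) - 525 +
          0 * (3 * (δ + 5) ^ 2 - 36 * (δ + 5) + 105) = δ * ((2 * δ - 5) * (δ - 2)) := by ring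
        rw [this]
        refine mul_nonneg hδ0 ?_
        rcases lt_or_ge δ 3 with hl | hl
        · interval_cases δ <;> norm_num
        · apply mul_nonneg <;> linarith
      · have : 2 * (δ + 5) ^ 3 - 39 * (δ + 5) ^ 2 + 250 * (δ + 5) - 525 +
          1 * (3 * (δ + 5) ^ 2 - 36 * (δ + 5) + 105) = 2 * δ * ((δ - 1) * (δ - 2)) := by ring
        rw [this]
        refine mul_nonneg (by linarith) ?_
        rcases lt_or_ge δ 3 with hl | hl
        · interval_cases δ <;> norm_num
        · apply mul_nonneg <;> linarith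
  simp_rw [Finset.sum_add_distrib] at hpos
  rw [sum_tr_eq (a := a) (fun D => 3 * D ^ 2 - 36 * D + 105)] at hpos
  -- expand everything
  have E1 : ∑ x, ∑ y, ∑ z, nd x y z * (D3 a x y z * (12 - D3 a x y z) ^ 2) =
      ∑ x, ∑ y, ∑ z, nd x y z * D3 a x y z ^ 3
      - 24 * ∑ x, ∑ y, ∑ z, nd x y z * (D3 a x y z * D3 a x y z)
      + 144 * ∑ x, ∑ y, ∑ z, nd x y z * D3 a x y z := by
    have : ∀ x y z, nd x y z * (D3 a x y z * (12 - D3 a x y z) ^ 2) =
        nd x y z * D3 a x y z ^ 3 - 24 * (nd x y z * (D3 a x y z * D3 a x y z))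
        + 144 * (nd x y z * D3 a x y z) := fun x y z => by ring
    simp_rw [this, Finset.sum_add_distrib, Finset.sum_sub_distrib, ← Finset.mul_sum]
  have E2 : ∑ x, ∑ y, ∑ z, nd x y z * (12 - D3 a x y z) ^ 3 =
      1728 * ∑ x : V, ∑ y : V, ∑ z : V, nd x y z
      - 432 * ∑ x, ∑ y, ∑ z, nd x y z * D3 a x y z
      + 36 * ∑ x, ∑ y, ∑ z, nd x y z * (D3 a x y z * D3 a x y z)
      - ∑ x, ∑ y, ∑ z, nd x y z * D3 a x y z ^ 3 := by
    have : ∀ x y z, nd x y z * (12 - D3 a x y z) ^ 3 =
        1728 * nd x y z - 432 * (nd x y z * D3 a x y z)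
        + 36 * (nd x y z * (D3 a x y z * D3 a x y z))
        - nd x y z * D3 a x y z ^ 3 := fun x y z => by ring
    simp_rw [this, Finset.sum_sub_distrib, Finset.sum_add_distrib, Finset.sum_sub_distrib,
      ← Finset.mul_sum]
  have E3 : ∑ x, ∑ y, ∑ z, nd x y z * (a x y * a x z * (D3 a x y z * (23 - 2 * D3 a x y z))) =
      23 * ∑ x, ∑ y, ∑ z, nd x y z * (a x y * a x z * D3 a x y z)
      - 2 * ∑ x, ∑ y, ∑ z, nd x y z * (a x y * a x z * D3 a x y z ^ 2) := by
    have : ∀ x y z, nd x y z * (a x y * a x z * (D3 a x y z * (23 - 2 * D3 a x y z))) =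
        23 * (nd x y z * (a x y * a x z * D3 a x y z))
        - 2 * (nd x y z * (a x y * a x z * D3 a x y z ^ 2)) := fun x y z => by ring
    simp_rw [this, Finset.sum_sub_distrib, ← Finset.mul_sum]
  have E4 : ∑ x, ∑ y, ∑ z, nd x y z * (a x y * a x z *
      (3 * (12 - D3 a x y z) ^ 2 - 3 * (12 - D3 a x y z) + 1)) =
      397 * ∑ x, ∑ y, ∑ z, nd x y z * (a x y * a x z)
      - 69 * ∑ x, ∑ y, ∑ z, nd x y z * (a x y * a x z * D3 a x y z)
      + 3 * ∑ x, ∑ y, ∑ z, nd x y z * (a x y * a x z * D3 a x y z ^ 2) := by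
    have : ∀ x y z, nd x y z * (a x y * a x z *
        (3 * (12 - D3 a x y z) ^ 2 - 3 * (12 - D3 a x y z) + 1)) =
        397 * (nd x y z * (a x y * a x z))
        - 69 * (nd x y z * (a x y * a x z * D3 a x y z))
        + 3 * (nd x y z * (a x y * a x z * D3 a x y z ^ 2)) := fun x y z => by ring
    simp_rw [this, Finset.sum_add_distrib, Finset.sum_sub_distrib, ← Finset.mul_sum]
  have E5 : ∑ x, ∑ y, ∑ z, nd x y z * (2 * D3 a x y z ^ 3 - 39 * D3 a x y z ^ 2
      + 250 * D3 a x y z - 525) =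
      2 * ∑ x, ∑ y, ∑ z, nd x y z * D3 a x y z ^ 3
      - 39 * ∑ x, ∑ y, ∑ z, nd x y z * (D3 a x y z * D3 a x y z)
      + 250 * ∑ x, ∑ y, ∑ z, nd x y z * D3 a x y z
      - 525 * ∑ x : V, ∑ y : V, ∑ z : V, nd x y z := by
    have : ∀ x y z, nd x y z * (2 * D3 a x y z ^ 3 - 39 * D3 a x y z ^ 2
        + 250 * D3 a x y z - 525) =
        2 * (nd x y z * D3 a x y z ^ 3) - 39 * (nd x y z * (D3 a x y z * D3 a x y z))
        + 250 * (nd x y z * D3 a x y z) - 525 * nd x y z := fun x y z => by ring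
    simp_rw [this, Finset.sum_sub_distrib, Finset.sum_add_distrib, Finset.sum_sub_distrib,
      ← Finset.mul_sum]
  have E6 : ∑ x, ∑ y, ∑ z, nd x y z * (a x y * a x z *
      (3 * D3 a x y z ^ 2 - 36 * D3 a x y z + 105)) =
      3 * ∑ x, ∑ y, ∑ z, nd x y z * (a x y * a x z * D3 a x y z ^ 2)
      - 36 * ∑ x, ∑ y, ∑ z, nd x y z * (a x y * a x z * D3 a x y z)
      + 105 * ∑ x, ∑ y, ∑ z, nd x y z * (a x y * a x z) := by
    have : ∀ x y z, nd x y z * (a x y * a x z *
        (3 * D3 a x y z ^ 2 - 36 * D3 a x y z + 105)) =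
        3 * (nd x y z * (a x y * a x z * D3 a x y z ^ 2))
        - 36 * (nd x y z * (a x y * a x z * D3 a x y z))
        + 105 * (nd x y z * (a x y * a x z)) := fun x y z => by ring
    simp_rw [this, Finset.sum_add_distrib, Finset.sum_sub_distrib, ← Finset.mul_sum]
  rw [E1, E2, E3, E4, A0, A1, A2, B0, B1] at I1
  rw [E5, E6, A0, A1, A2, B0, B1] at hpos
  generalize (∑ x, ∑ y, ∑ z, nd x y z * D3 a x y z ^ 3) = A3 at I1 hpos
  generalize (∑ x, ∑ y, ∑ z, nd x y z * (a x y * a x z * D3 a x y z ^ 2)) = B2 at I1 hpos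
  norm_num at I1 hpos
  linarith

end Pool.Agent.Schutte
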