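import Mathlib

/-!
Key lemma for tournaments with property S_4: abstract counting inside the set `E` of common
dominators of a pair, when `|E| = 11` and there are 49 other vertices.
-/

set_option linter.unusedSectionVars false
set_option linter.unusedVariables false
set_option linter.unnecessarySeqFocus false

namespace Pool.Agent.Schutte

open Finset

/-- 0/1 matrix of a tournament -/
structure Tour {V : Type*} (a : V → V → ℤ) : Prop where
  z : ∀ u, a u u = 0
  o : ∀ u v, u ≠ v → a u v + a v u = 1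
  b : ∀ u v, a u v = 0 ∨ a u v = 1

variable {V : Type*} [DecidableEq V] {a : V → V → ℤ}

lemma Tour.nonneg (h : Tour a) (u v : V) : 0 ≤ a u v := by
  rcases h.b u v with e | e <;> rw [e] <;> norm_num

lemma Tour.le_one (h : Tour a) (u v : V) : a u v ≤ 1 := by
  rcases h.b u v with e | e <;> rw [e] <;> norm_num

lemma Tour.sq (h : Tour a) (u v : V) : a u v * a u v = a u v := by
  rcases h.b u v with e | e <;> rw [e] <;> norm_num

/-- arcs inside a finset -/
lemma Tour.arcs (h : Tour a) (E : Finset V) :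
    2 * ∑ y ∈ E, ∑ x ∈ E, a x y = (E.card : ℤ) * E.card - E.card := by
  have h1 : ∑ y ∈ E, ∑ x ∈ E, a x y = ∑ y ∈ E, ∑ x ∈ E, a y x := Finset.sum_comm
  have h2 : ∑ y ∈ E, ∑ x ∈ E, (a x y + a y x) = ∑ y ∈ E, ∑ x ∈ E, (1 - if x = y then (1:ℤ) else 0) := by
    refine Finset.sum_congr rfl fun y _ => Finset.sum_congr rfl fun x _ => ?_
    by_cases e : x = y
    · subst e; simp [h.z]
    · simp [e, h.o x y e]
  have h3 : ∑ y ∈ E, ∑ x ∈ E, (1 - if x = y then (1:ℤ) else 0) = (E.card : ℤ) * E.card - E.card := by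
    have : ∀ y ∈ E, ∑ x ∈ E, (1 - if x = y then (1:ℤ) else 0) = (E.card : ℤ) - 1 := by
      intro y hy
      rw [Finset.sum_sub_distrib]
      simp [hy]
    rw [Finset.sum_congr rfl this]
    rw [Finset.sum_const, nsmul_eq_mul]
    ring
  have h4 : ∑ y ∈ E, ∑ x ∈ E, (a x y + a y x) = 2 * ∑ y ∈ E, ∑ x ∈ E, a x y := by
    rw [two_mul]
    nth_rewrite 2 [h1]
    rw [← Finset.sum_add_distrib]
    refine Finset.sum_congr rfl fun y _ => ?_
    rw [← Finset.sum_add_distrib]
  rw [← h4, h2, h3]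

/-- in a finset where everyone has at least `k` in-neighbours, card is at least `2k+1` -/
lemma Tour.card_ge (h : Tour a) (E : Finset V) (hne : E.Nonempty) (k : ℤ)
    (hk : ∀ y ∈ E, k ≤ ∑ x ∈ E, a x y) : 2 * k + 1 ≤ (E.card : ℤ) := by
  have h1 := h.arcs E
  have h2 : (E.card : ℤ) * k ≤ ∑ y ∈ E, ∑ x ∈ E, a x y := by
    have := Finset.sum_le_sum hk
    simpa using this
  have h3 : (0 : ℤ) < E.card := by exact_mod_cast hne.card_pos
  by_contra hc
  push Not at hc
  nlinarith

/-- in + out = card - 1 -/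
lemma Tour.in_add_out (h : Tour a) (E : Finset V) (y : V) (hy : y ∈ E) :
    ∑ x ∈ E, a x y + ∑ x ∈ E, a y x = (E.card : ℤ) - 1 := by
  rw [← Finset.sum_add_distrib]
  have : ∀ x ∈ E, a x y + a y x = 1 - if x = y then (1:ℤ) else 0 := by
    intro x _
    by_cases e : x = y
    · subst e; simp [h.z]
    · simp [e, h.o x y e]
  rw [Finset.sum_congr rfl this, Finset.sum_sub_distrib]
  simp [hy]

section key

variable (E U : Finset V)

/-- number of 3-cycles through the pair -/
def cyc (a : V → V → ℤ) (x y z : V) : ℤ := a x y * a y z * a z x + a x z * a z y * a y x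

def tr (a : V → V → ℤ) (x y z : V) : ℤ := a x y * a x z + a y x * a y z + a z x * a z y

lemma tr_add_cyc (h : Tour a) {x y z : V} (hxy : x ≠ y) (hxz : x ≠ z) (hyz : y ≠ z) :
    tr a x y z + cyc a x y z = 1 := by
  have e1 : a y x = 1 - a x y := by have := h.o x y hxy; linarith
  have e2 : a z x = 1 - a x z := by have := h.o x z hxz; linarith
  have e3 : a z y = 1 - a y z := by have := h.o y z hyz; linarith
  unfold tr cyc
  rw [e1, e2, e3]
  rcases h.b x y with p | p <;> rcases h.b x z with q | q <;> rcases h.b y z with s | s <;>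
    rw [p, q, s] <;> norm_num

lemma cyc_self_left (h : Tour a) (x y : V) : cyc a x y x = 0 := by
  unfold cyc; rw [h.z]; ring

lemma cyc_self_right (h : Tour a) (x y : V) : cyc a x y y = 0 := by
  unfold cyc; rw [h.z]; ring

/-- sum of 3-cycles at a vertex of a regular tournament on 11 points -/
lemma sum_cyc (h : Tour a) (hE : E.card = 11)
    (hin : ∀ y ∈ E, ∑ x ∈ E, a x y = 5) (hout : ∀ y ∈ E, ∑ x ∈ E, a y x = 5)
    {x : V} (hx : x ∈ E) :
    ∑ y ∈ E, ∑ z ∈ E, cyc a x y z = 30 := by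
  have h1 : ∑ y ∈ E, ∑ z ∈ E, cyc a x y z = 2 * ∑ y ∈ E, ∑ z ∈ E, a x y * a y z * a z x := by
    unfold cyc
    simp_rw [Finset.sum_add_distrib]
    have : ∑ y ∈ E, ∑ z ∈ E, a x z * a z y * a y x = ∑ y ∈ E, ∑ z ∈ E, a x y * a y z * a z x := by
      rw [Finset.sum_comm]
    rw [this]; ring
  -- arcs inside the out-neighbourhood
  have h2 : 2 * ∑ y ∈ E, ∑ z ∈ E, a x y * a x z * a y z = 20 := by
    have e1 : ∑ y ∈ E, ∑ z ∈ E, a x y * a x z * (a y z + a z y) =
        ∑ y ∈ E, ∑ z ∈ E, (a x y * a x z - if z = y then a x y else 0) := by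
      refine Finset.sum_congr rfl fun y _ => Finset.sum_congr rfl fun z _ => ?_
      by_cases e : z = y
      · subst e; simp [h.z, h.sq]
      · simp [e, h.o y z (Ne.symm e)]
    have e2 : ∑ y ∈ E, ∑ z ∈ E, a x y * a x z * (a y z + a z y) =
        2 * ∑ y ∈ E, ∑ z ∈ E, a x y * a x z * a y z := by
      simp_rw [mul_add, Finset.sum_add_distrib]
      have : ∑ y ∈ E, ∑ z ∈ E, a x y * a x z * a z y = ∑ y ∈ E, ∑ z ∈ E, a x y * a x z * a y z := by
        rw [Finset.sum_comm]
        refine Finset.sum_congr rfl fun y _ => Finset.sum_congr rfl fun z _ => by ring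
      rw [this]; ring
    rw [← e2, e1]
    simp_rw [Finset.sum_sub_distrib, ← Finset.mul_sum]
    rw [← Finset.sum_mul, hout x hx]
    have : ∀ y ∈ E, (∑ z ∈ E, if z = y then a x y else 0) = a x y := by
      intro y hy; simp [hy]
    rw [Finset.sum_congr rfl this, hout x hx]
    norm_num
  have h3 : ∑ y ∈ E, ∑ z ∈ E, a x y * a y z * a z x =
      ∑ y ∈ E, ∑ z ∈ E, (a x y * a y z - a x y * a x z * a y z - if z = x then a x y * a y x else 0) := by
    refine Finset.sum_congr rfl fun y _ => Finset.sum_congr rfl fun z _ => ?_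
    by_cases e : z = x
    · subst e; simp [h.z]
    · have : a z x = 1 - a x z := by have := h.o x z (Ne.symm e); linarith
      rw [this]; simp [e]; ring
  rw [h1, h3]
  simp_rw [Finset.sum_sub_distrib]
  have e4 : ∑ y ∈ E, ∑ z ∈ E, a x y * a y z = 25 := by
    simp_rw [← Finset.mul_sum]
    have : ∀ y ∈ E, a x y * ∑ z ∈ E, a y z = a x y * 5 := by
      intro y hy; rw [hout y hy]
    rw [Finset.sum_congr rfl this, ← Finset.sum_mul, hout x hx]; norm_num
  have e5 : ∑ y ∈ E, ∑ z ∈ E, (if z = x then a x y * a y x else 0) = 0 := by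
    have : ∀ y ∈ E, (∑ z ∈ E, if z = x then a x y * a y x else 0) = 0 := by
      intro y _
      by_cases e : y = x
      · subst e; simp [h.z]
      · have : a x y * a y x = 0 := by
          have := h.o x y (Ne.symm e)
          rcases h.b x y with p | p
          · rw [p]; ring
          · have : a y x = 0 := by linarith
            rw [this]; ring
        simp [this]
    rw [Finset.sum_congr rfl this]; simp
  rw [e4, e5]
  linarith

/-- indicator that `x` is not beaten.. (`x` does not dominate `u`) -/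
def bb (a : V → V → ℤ) (x u : V) : ℤ := 1 - a x u

lemma bb_sq (h : Tour a) (x u : V) : bb a x u * bb a x u = bb a x u := by
  unfold bb; rcases h.b x u with e | e <;> rw [e] <;> norm_num

lemma bb_nonneg (h : Tour a) (x u : V) : 0 ≤ bb a x u := by
  unfold bb; have := h.le_one x u; linarith

lemma bb_le_one (h : Tour a) (x u : V) : bb a x u ≤ 1 := by
  unfold bb; have := h.nonneg x u; linarith

lemma bb_cases (h : Tour a) (x u : V) : bb a x u = 0 ∨ bb a x u = 1 := by
  unfold bb; rcases h.b x u with e | e <;> rw [e] <;> norm_num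

def c1 (a : V → V → ℤ) (U : Finset V) (x : V) : ℤ := ∑ u ∈ U, bb a x u
def c2 (a : V → V → ℤ) (U : Finset V) (x y : V) : ℤ := ∑ u ∈ U, bb a x u * bb a y u
def c3 (a : V → V → ℤ) (U : Finset V) (x y z : V) : ℤ := ∑ u ∈ U, bb a x u * bb a y u * bb a z u
def kk (a : V → V → ℤ) (E : Finset V) (u : V) : ℤ := ∑ x ∈ E, bb a x u

lemma c2_self (h : Tour a) (U : Finset V) (x : V) : c2 a U x x = c1 a U x := by
  unfold c2 c1; simp_rw [bb_sq h]

lemma c2_comm (U : Finset V) (x y : V) : c2 a U x y = c2 a U y x := by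
  unfold c2; simp_rw [mul_comm]

lemma c3_self1 (h : Tour a) (U : Finset V) (x y : V) : c3 a U x y x = c2 a U x y := by
  unfold c3 c2
  refine Finset.sum_congr rfl fun u _ => ?_
  have := bb_sq h x u
  calc bb a x u * bb a y u * bb a x u = (bb a x u * bb a x u) * bb a y u := by ring
    _ = _ := by rw [this]

lemma c3_self2 (h : Tour a) (U : Finset V) (x y : V) : c3 a U x y y = c2 a U x y := by
  unfold c3 c2
  refine Finset.sum_congr rfl fun u _ => ?_
  have := bb_sq h y u
  calc bb a x u * bb a y u * bb a y u = bb a x u * (bb a y u * bb a y u) := by ring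
    _ = _ := by rw [this]

lemma sum_c1 (E U : Finset V) : ∑ x ∈ E, c1 a U x = ∑ u ∈ U, kk a E u := by
  unfold c1 kk; rw [Finset.sum_comm]

lemma sum_c2 (E U : Finset V) (x : V) :
    ∑ y ∈ E, c2 a U x y = ∑ u ∈ U, bb a x u * kk a E u := by
  unfold c2 kk; rw [Finset.sum_comm]; simp_rw [← Finset.mul_sum]

lemma sum_c3 (E U : Finset V) (x y : V) :
    ∑ z ∈ E, c3 a U x y z = ∑ u ∈ U, bb a x u * bb a y u * kk a E u := by
  unfold c3 kk; rw [Finset.sum_comm]; simp_rw [← Finset.mul_sum]

/-- closed coverage of a triple -/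
lemma c3_ge (h : Tour a) (hEU : E ⊆ U)
    (h3 : ∀ x ∈ E, ∀ y ∈ E, ∀ z ∈ E, x ≠ y → x ≠ z → y ≠ z →
      5 ≤ ∑ u ∈ U, a u x * a u y * a u z)
    {x y z : V} (hx : x ∈ E) (hy : y ∈ E) (hz : z ∈ E)
    (hxy : x ≠ y) (hxz : x ≠ z) (hyz : y ≠ z) :
    5 + tr a x y z ≤ c3 a U x y z := by
  have key : c3 a U x y z = ∑ u ∈ U, (a u x * a u y * a u z
      + (if u = x then a x y * a x z else 0) + (if u = y then a y x * a y z else 0)
      + (if u = z then a z x * a z y else 0)) := by
    unfold c3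
    refine Finset.sum_congr rfl fun u _ => ?_
    unfold bb
    by_cases e1 : u = x
    · subst e1
      have e2 : a y u = 1 - a u y := by have := h.o u y hxy; linarith
      have e3 : a z u = 1 - a u z := by have := h.o u z hxz; linarith
      simp [h.z, hxy, hxz, e2, e3]
    · by_cases e2 : u = y
      · subst e2
        have e4 : a x u = 1 - a u x := by have := h.o x u hxy; linarith
        have e3 : a z u = 1 - a u z := by have := h.o u z hyz; linarith
        simp [h.z, e1, hyz, e3, e4]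
      · by_cases e3 : u = z
        · subst e3
          have e4 : a x u = 1 - a u x := by have := h.o x u hxz; linarith
          have e5 : a y u = 1 - a u y := by have := h.o y u hyz; linarith
          simp [h.z, e1, e2, e4, e5]
        · have e4 : a x u = 1 - a u x := by have := h.o x u (Ne.symm e1); linarith
          have e5 : a y u = 1 - a u y := by have := h.o y u (Ne.symm e2); linarith
          have e6 : a z u = 1 - a u z := by have := h.o z u (Ne.symm e3); linarith
          simp [e1, e2, e3, e4, e5, e6]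
  rw [key]
  simp_rw [Finset.sum_add_distrib]
  have s1 : ∑ u ∈ U, (if u = x then a x y * a x z else 0) = a x y * a x z := by
    simp [hEU hx]
  have s2 : ∑ u ∈ U, (if u = y then a y x * a y z else 0) = a y x * a y z := by
    simp [hEU hy]
  have s3 : ∑ u ∈ U, (if u = z then a z x * a z y else 0) = a z x * a z y := by
    simp [hEU hz]
  rw [s1, s2, s3]
  have := h3 x hx y hy z hz hxy hxz hyz
  unfold tr
  linarith

/-- sums over `E` minus two points -/
lemma sum_two (F : V → ℤ) {x y : V} (hx : x ∈ E) (hy : y ∈ E) (hxy : x ≠ y) :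
    ∑ z ∈ (E.erase x).erase y, F z = ∑ z ∈ E, F z - F x - F y := by
  rw [← Finset.add_sum_erase E F hx, ← Finset.add_sum_erase (E.erase x) F
    (Finset.mem_erase.2 ⟨Ne.symm hxy, hy⟩)]
  ring

structure Cfg (a : V → V → ℤ) (E U : Finset V) : Prop where
  t : Tour a
  sub : E ⊆ U
  hE : E.card = 11
  hU : U.card = 49
  h1 : ∀ u ∈ U, 5 ≤ ∑ x ∈ E, a x u
  h3 : ∀ x ∈ E, ∀ y ∈ E, ∀ z ∈ E, x ≠ y → x ≠ z → y ≠ z →
      5 ≤ ∑ u ∈ U, a u x * a u y * a u z

variable {E U}

lemma Cfg.hin (c : Cfg a E U) : ∀ y ∈ E, ∑ x ∈ E, a x y = 5 := by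
  have h1 := c.t.arcs E
  rw [c.hE] at h1
  have h2 : ∑ y ∈ E, (∑ x ∈ E, a x y - 5) = 0 := by
    rw [Finset.sum_sub_distrib]; simp [c.hE]; push_cast at h1; linarith
  have h3 : ∀ y ∈ E, 0 ≤ ∑ x ∈ E, a x y - 5 := fun y hy => by
    have := c.h1 y (c.sub hy); linarith
  intro y hy
  have := (Finset.sum_eq_zero_iff_of_nonneg h3).1 h2 y hy
  linarith

lemma Cfg.hout (c : Cfg a E U) : ∀ y ∈ E, ∑ x ∈ E, a y x = 5 := by
  intro y hy
  have := c.t.in_add_out E y hy
  rw [c.hin y hy, c.hE] at this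
  push_cast at this
  linarith

lemma Cfg.kk_eq (c : Cfg a E U) (u : V) : kk a E u = 11 - ∑ x ∈ E, a x u := by
  unfold kk bb
  rw [Finset.sum_sub_distrib]; simp [c.hE]

lemma Cfg.kk_le (c : Cfg a E U) {u : V} (hu : u ∈ U) : kk a E u ≤ 6 := by
  rw [c.kk_eq]; have := c.h1 u hu; linarith

lemma kk_nonneg (h : Tour a) (u : V) : 0 ≤ kk a E u :=
  Finset.sum_nonneg fun x _ => bb_nonneg h x u

/-- number of 3-cycles through a pair is at most 5 -/
lemma Cfg.cyc_le (c : Cfg a E U) {x y : V} (hx : x ∈ E) (hy : y ∈ E) (hxy : x ≠ y) :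
    ∑ z ∈ E, cyc a x y z ≤ 5 := by
  rcases c.t.b x y with e | e
  · have e2 : a y x = 1 := by have := c.t.o x y hxy; linarith
    have : ∀ z ∈ E, cyc a x y z ≤ a x z := by
      intro z _
      unfold cyc; rw [e, e2]
      have := c.t.nonneg x z; have := c.t.le_one z y
      nlinarith
    calc _ ≤ ∑ z ∈ E, a x z := Finset.sum_le_sum this
      _ = 5 := c.hout x hx
  · have e2 : a y x = 0 := by have := c.t.o x y hxy; linarith
    have : ∀ z ∈ E, cyc a x y z ≤ a y z := by
      intro z _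
      unfold cyc; rw [e, e2]
      have := c.t.nonneg y z; have := c.t.le_one z x
      nlinarith
    calc _ ≤ ∑ z ∈ E, a y z := Finset.sum_le_sum this
      _ = 5 := c.hout y hy

lemma Cfg.sum_tr (c : Cfg a E U) {x y : V} (hx : x ∈ E) (hy : y ∈ E) (hxy : x ≠ y) :
    ∑ z ∈ (E.erase x).erase y, tr a x y z = 9 - ∑ z ∈ E, cyc a x y z := by
  have h1 : ∑ z ∈ (E.erase x).erase y, tr a x y z =
      ∑ z ∈ (E.erase x).erase y, (1 - cyc a x y z) := by
    refine Finset.sum_congr rfl fun z hz => ?_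
    simp only [Finset.mem_erase] at hz
    have := tr_add_cyc c.t hxy (Ne.symm hz.2.1) (Ne.symm hz.1)
    linarith
  rw [h1, sum_two (E := E) _ hx hy hxy, cyc_self_left c.t, cyc_self_right c.t,
    Finset.sum_sub_distrib]
  simp [c.hE]; ring

/-- exact sum of triple coverages -/
lemma Cfg.sum_c3_two (c : Cfg a E U) {x y : V} (hx : x ∈ E) (hy : y ∈ E) (hxy : x ≠ y) :
    ∑ z ∈ (E.erase x).erase y, c3 a U x y z
      = ∑ u ∈ U, bb a x u * bb a y u * (kk a E u - 2) := by
  rw [sum_two (E := E) _ hx hy hxy, c3_self1 c.t, c3_self2 c.t, sum_c3]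
  simp_rw [mul_sub, Finset.sum_sub_distrib]
  unfold c2
  rw [← Finset.sum_mul]; ring

lemma Cfg.sum_c3_ge (c : Cfg a E U) {x y : V} (hx : x ∈ E) (hy : y ∈ E) (hxy : x ≠ y) :
    54 - ∑ z ∈ E, cyc a x y z ≤ ∑ z ∈ (E.erase x).erase y, c3 a U x y z := by
  have h1 : ∑ z ∈ (E.erase x).erase y, (5 + tr a x y z) ≤
      ∑ z ∈ (E.erase x).erase y, c3 a U x y z := by
    refine Finset.sum_le_sum fun z hz => ?_
    simp only [Finset.mem_erase] at hz
    exact c3_ge E U c.t c.sub c.h3 hx hy hz.2.2 hxy (Ne.symm hz.2.1) (Ne.symm hz.1)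
  have hcard : ((E.erase x).erase y).card = 9 := by
    rw [Finset.card_erase_of_mem (Finset.mem_erase.2 ⟨Ne.symm hxy, hy⟩),
      Finset.card_erase_of_mem hx, c.hE]
  rw [Finset.sum_add_distrib, c.sum_tr hx hy hxy] at h1
  simp [hcard] at h1
  linarith

lemma Cfg.c2_ge (c : Cfg a E U) {x y : V} (hx : x ∈ E) (hy : y ∈ E) (hxy : x ≠ y) :
    13 ≤ c2 a U x y := by
  have h1 := c.sum_c3_ge hx hy hxy
  rw [c.sum_c3_two hx hy hxy] at h1
  have h2 : ∑ u ∈ U, bb a x u * bb a y u * (kk a E u - 2) ≤ ∑ u ∈ U, bb a x u * bb a y u * 4 := by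
    refine Finset.sum_le_sum fun u hu => ?_
    have := c.kk_le hu
    have := mul_nonneg (bb_nonneg c.t x u) (bb_nonneg c.t y u)
    nlinarith
  rw [← Finset.sum_mul] at h2
  have h3 := c.cyc_le hx hy hxy
  change _ ≤ c2 a U x y * 4 at h2
  omega

lemma Cfg.sum_c2_erase (c : Cfg a E U) {x : V} (hx : x ∈ E) :
    ∑ y ∈ E.erase x, c2 a U x y = ∑ u ∈ U, bb a x u * (kk a E u - 1) := by
  have := Finset.add_sum_erase E (fun y => c2 a U x y) hx
  simp only [c2_self c.t] at this
  have h2 := sum_c2 (a := a) E U x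
  have h3 : ∑ u ∈ U, bb a x u * (kk a E u - 1) = ∑ u ∈ U, bb a x u * kk a E u - c1 a U x := by
    unfold c1
    rw [← Finset.sum_sub_distrib]
    refine Finset.sum_congr rfl fun u _ => by ring
  linarith

lemma Cfg.sum_c2_ge (c : Cfg a E U) {x : V} (hx : x ∈ E) :
    130 ≤ ∑ y ∈ E.erase x, c2 a U x y := by
  have : ∑ y ∈ E.erase x, (13 : ℤ) ≤ ∑ y ∈ E.erase x, c2 a U x y := by
    refine Finset.sum_le_sum fun y hy => ?_
    simp only [Finset.mem_erase] at hy
    exact c.c2_ge hx hy.2 (Ne.symm hy.1)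
  simp [Finset.card_erase_of_mem hx, c.hE] at this
  linarith

/-- `5 c1 x - D1 x = Σ c2 ` -/
lemma Cfg.c1_eq (c : Cfg a E U) {x : V} (hx : x ∈ E) :
    ∑ y ∈ E.erase x, c2 a U x y = 5 * c1 a U x - ∑ u ∈ U, bb a x u * (6 - kk a E u) := by
  rw [c.sum_c2_erase hx]
  unfold c1
  rw [Finset.mul_sum, ← Finset.sum_sub_distrib]
  refine Finset.sum_congr rfl fun u _ => by ring

lemma Cfg.D1_nonneg (c : Cfg a E U) (x : V) : 0 ≤ ∑ u ∈ U, bb a x u * (6 - kk a E u) := by
  refine Finset.sum_nonneg fun u hu => mul_nonneg (bb_nonneg c.t x u) ?_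
  have := c.kk_le hu; linarith

lemma Cfg.c1_ge (c : Cfg a E U) {x : V} (hx : x ∈ E) : 26 ≤ c1 a U x := by
  have h1 := c.c1_eq hx
  have h2 := c.sum_c2_ge hx
  have h3 := c.D1_nonneg x
  omega

/-- deficiency sum -/
def defi (a : V → V → ℤ) (E U : Finset V) : ℤ := ∑ u ∈ U, (6 - kk a E u)

lemma Cfg.sum_h (c : Cfg a E U) : ∑ x ∈ E, (c1 a U x - 26) = 8 - defi a E U := by
  rw [Finset.sum_sub_distrib, sum_c1]
  unfold defi
  rw [Finset.sum_sub_distrib]
  simp [c.hE, c.hU]
  ring

lemma Cfg.c1_ge' (c : Cfg a E U) {x u : V} (hx : x ∈ E) (hu : u ∈ U) (hk : kk a E u < 6)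
    (hb : bb a x u = 1) : 27 ≤ c1 a U x := by
  have h1 := c.c1_eq hx
  have h2 := c.sum_c2_ge hx
  have h3 : bb a x u * (6 - kk a E u) ≤ ∑ u ∈ U, bb a x u * (6 - kk a E u) := by
    refine Finset.single_le_sum (f := fun u => bb a x u * (6 - kk a E u)) (fun w hw => ?_) hu
    have := c.kk_le hw
    exact mul_nonneg (bb_nonneg c.t x w) (by linarith)
  rw [hb] at h3
  omega

lemma Cfg.defi_le (c : Cfg a E U) {u : V} (hu : u ∈ U) (hk : kk a E u < 6) :
    defi a E U ≤ 8 - kk a E u := by
  have h1 := c.sum_h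
  have h2 : kk a E u ≤ ∑ x ∈ E, (c1 a U x - 26) := by
    unfold kk
    refine Finset.sum_le_sum fun x hx => ?_
    rcases bb_cases c.t x u with e | e
    · rw [e]; have := c.c1_ge hx; linarith
    · rw [e]; have := c.c1_ge' hx hu hk e; linarith
  linarith

/-- main local lemma -/
theorem Cfg.defi_le_four (c : Cfg a E U) : defi a E U ≤ 4 := by
  by_contra hc
  push Not at hc
  -- a deficient vertex exists
  obtain ⟨u0, hu0, hk0⟩ : ∃ u ∈ U, kk a E u < 6 := by
    by_contra hcon
    push Not at hcon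
    have : defi a E U ≤ 0 := by
      unfold defi
      refine Finset.sum_nonpos fun u hu => ?_
      have := hcon u hu; linarith
    linarith
  have hle := c.defi_le hu0 hk0
  have hk0' := kk_nonneg (E := E) c.t u0
  -- unique
  have huniq : ∀ u ∈ U, u ≠ u0 → kk a E u = 6 := by
    intro u hu hne
    by_contra hk
    have hk' : kk a E u < 6 := lt_of_le_of_ne (c.kk_le hu) hk
    have hle' := c.defi_le hu hk'
    have h2 : (6 - kk a E u0) + (6 - kk a E u) ≤ defi a E U := by
      unfold defi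
      rw [← Finset.add_sum_erase U _ hu0]
      have : (6 - kk a E u) ≤ ∑ w ∈ U.erase u0, (6 - kk a E w) := by
        refine Finset.single_le_sum (f := fun w => 6 - kk a E w) (fun w hw => ?_)
          (Finset.mem_erase.2 ⟨hne, hu⟩)
        have := c.kk_le (Finset.mem_of_mem_erase hw)
        show 0 ≤ 6 - kk a E w
        linarith
      linarith
    omega
  have hdef : defi a E U = 6 - kk a E u0 := by
    unfold defi
    rw [← Finset.add_sum_erase U _ hu0]
    have : ∑ w ∈ U.erase u0, (6 - kk a E w) = 0 := by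
      refine Finset.sum_eq_zero fun w hw => ?_
      simp only [Finset.mem_erase] at hw
      rw [huniq w hw.2 hw.1]; ring
    linarith
  -- sums with (6 - kk)
  have hsum : ∀ F : V → ℤ, ∑ u ∈ U, F u * (6 - kk a E u) = F u0 * (6 - kk a E u0) := by
    intro F
    rw [← Finset.add_sum_erase U _ hu0]
    have : ∑ w ∈ U.erase u0, F w * (6 - kk a E w) = 0 := by
      refine Finset.sum_eq_zero fun w hw => ?_
      simp only [Finset.mem_erase] at hw
      rw [huniq w hw.2 hw.1]; ring
    linarith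
  set k0 := kk a E u0 with hk0def
  have hk01 : k0 = 0 ∨ k0 = 1 := by omega
  -- G x
  set G : V → ℤ := fun x => ∑ y ∈ E.erase x, (c2 a U x y - 13) with hG
  have hGeq : ∀ x ∈ E, G x = 5 * (c1 a U x - 26) - bb a x u0 * (6 - k0) := by
    intro x hx
    simp only [hG]
    rw [Finset.sum_sub_distrib, c.c1_eq hx, hsum]
    simp [Finset.card_erase_of_mem hx, c.hE]; ring
  have hg0 : ∀ x ∈ E, ∀ y ∈ E, x ≠ y → 0 ≤ c2 a U x y - 13 := by
    intro x hx y hy hxy
    have := c.c2_ge hx hy hxy; linarith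
  have hGnn : ∀ x ∈ E, 0 ≤ G x := by
    intro x hx
    refine Finset.sum_nonneg fun y hy => ?_
    simp only [Finset.mem_erase] at hy
    exact hg0 x hx y hy.2 (Ne.symm hy.1)
  have hGsum : ∑ x ∈ E, G x = 10 := by
    rw [Finset.sum_congr rfl hGeq, Finset.sum_sub_distrib, ← Finset.mul_sum, c.sum_h,
      ← Finset.sum_mul]
    change 5 * (8 - defi a E U) - kk a E u0 * (6 - k0) = 10
    rw [hdef, ← hk0def]
    rcases hk01 with e | e <;> rw [e] <;> norm_num
  have hGmod : ∀ x ∈ E, G x = 0 ∨ 5 ≤ G x := by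
    intro x hx
    have h1 := hGeq x hx
    have h2 := hGnn x hx
    rcases hk01 with e | e
    · -- k0 = 0 : bb = 0 for all x
      have : bb a x u0 = 0 := by
        have h3 : bb a x u0 ≤ kk a E u0 := by
          unfold kk
          exact Finset.single_le_sum (f := fun x => bb a x u0) (fun w _ => bb_nonneg c.t w u0) hx
        have := bb_nonneg c.t x u0
        rw [← hk0def, e] at h3
        linarith
      rw [this] at h1
      omega
    · rw [e] at h1
      rcases bb_cases c.t x u0 with f | f <;> rw [f] at h1 <;> omega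
  -- find x with G x > 0
  obtain ⟨x, hx, hGx⟩ : ∃ x ∈ E, 5 ≤ G x := by
    by_contra hcon
    push Not at hcon
    have : ∑ x ∈ E, G x = 0 := by
      refine Finset.sum_eq_zero fun x hx => ?_
      rcases hGmod x hx with e | e
      · exact e
      · exact absurd e (not_le.2 (hcon x hx))
    omega
  obtain ⟨y, hy, hyx, hgy⟩ : ∃ y ∈ E, y ≠ x ∧ 0 < c2 a U x y - 13 := by
    by_contra hcon
    push Not at hcon
    have : G x ≤ 0 := by
      refine Finset.sum_nonpos fun y hy => ?_
      simp only [Finset.mem_erase] at hy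
      exact hcon y hy.2 hy.1
    omega
  have hgle : ∀ p ∈ E, ∀ q ∈ E, p ≠ q → c2 a U p q - 13 ≤ G q := by
    intro p hp q hq hpq
    have h1 : c2 a U q p - 13 ≤ G q := by
      refine Finset.single_le_sum (f := fun y => c2 a U q y - 13) (fun w hw => ?_)
        (Finset.mem_erase.2 ⟨hpq, hp⟩)
      simp only [Finset.mem_erase] at hw
      exact hg0 q hq w hw.2 (Ne.symm hw.1)
    rw [c2_comm]; exact h1
  have hGy : 5 ≤ G y := by
    rcases hGmod y hy with e | e
    · have := hgle x hx y hy (Ne.symm hyx); omega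
    · exact e
  have hsplit : ∑ z ∈ (E.erase x).erase y, G z = 10 - G x - G y := by
    rw [sum_two (E := E) _ hx hy (Ne.symm hyx), hGsum]
  have hGother : ∀ z ∈ (E.erase x).erase y, 0 ≤ G z := by
    intro z hz
    simp only [Finset.mem_erase] at hz
    exact hGnn z hz.2.2
  have hs0 : 0 ≤ ∑ z ∈ (E.erase x).erase y, G z := Finset.sum_nonneg hGother
  have hGx5 : G x = 5 := by omega
  have hGz : ∀ z ∈ (E.erase x).erase y, G z = 0 := by
    have : ∑ z ∈ (E.erase x).erase y, G z = 0 := by omega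
    exact (Finset.sum_eq_zero_iff_of_nonneg hGother).1 this
  have hgz : ∀ z ∈ (E.erase x).erase y, c2 a U x z = 13 := by
    intro z hz
    have h1 := hGz z hz
    simp only [Finset.mem_erase] at hz
    have h2 := hgle x hx z hz.2.2 (Ne.symm hz.2.1)
    have h3 := hg0 x hx z hz.2.2 (Ne.symm hz.2.1)
    omega
  have hgxy : c2 a U x y = 18 := by
    have h1 : G x = (c2 a U x y - 13) + ∑ z ∈ (E.erase x).erase y, (c2 a U x z - 13) := by
      simp only [hG]
      rw [← Finset.add_sum_erase (E.erase x) _ (Finset.mem_erase.2 ⟨hyx, hy⟩)]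
    have h2 : ∑ z ∈ (E.erase x).erase y, (c2 a U x z - 13) = 0 := by
      refine Finset.sum_eq_zero fun z hz => ?_
      rw [hgz z hz]; ring
    omega
  -- f
  have hf : ∀ p ∈ E, ∀ q ∈ E, p ≠ q →
      ∑ z ∈ (E.erase p).erase q, (c3 a U p q z - 5 - tr a p q z) =
        4 * c2 a U p q - 54 + ∑ z ∈ E, cyc a p q z := by
    intro p hp q hq hpq
    have hcard : ((E.erase p).erase q).card = 9 := by
      rw [Finset.card_erase_of_mem (Finset.mem_erase.2 ⟨Ne.symm hpq, hq⟩),
        Finset.card_erase_of_mem hp, c.hE]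
    rw [Finset.sum_sub_distrib, Finset.sum_sub_distrib, c.sum_tr hp hq hpq,
      c.sum_c3_two hp hq hpq]
    have h1 : ∑ u ∈ U, bb a p u * bb a q u * (kk a E u - 2) =
        4 * c2 a U p q - ∑ u ∈ U, (bb a p u * bb a q u) * (6 - kk a E u) := by
      unfold c2
      rw [Finset.mul_sum, ← Finset.sum_sub_distrib]
      refine Finset.sum_congr rfl fun u _ => by ring
    have h2 : bb a p u0 * bb a q u0 = 0 := by
      have h3 : bb a p u0 + bb a q u0 ≤ kk a E u0 := by
        unfold kk
        rw [← Finset.add_sum_erase E _ hp]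
        have : bb a q u0 ≤ ∑ w ∈ E.erase p, bb a w u0 :=
          Finset.single_le_sum (f := fun w => bb a w u0) (fun w _ => bb_nonneg c.t w u0)
            (Finset.mem_erase.2 ⟨Ne.symm hpq, hq⟩)
        linarith
      rw [← hk0def] at h3
      rcases bb_cases c.t p u0 with f | f
      · rw [f]; ring
      · rcases bb_cases c.t q u0 with f' | f'
        · rw [f']; ring
        · rw [f, f'] at h3; omega
    rw [h1, hsum, h2]
    simp [hcard]; ring
  have hd0 : ∀ p ∈ E, ∀ q ∈ E, ∀ r ∈ E, p ≠ q → p ≠ r → q ≠ r →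
      0 ≤ c3 a U p q r - 5 - tr a p q r := by
    intro p hp q hq r hr h1 h2 h3
    have := c3_ge E U c.t c.sub c.h3 hp hq hr h1 h2 h3
    linarith
  have hfxy := hf x hx y hy (Ne.symm hyx)
  rw [hgxy] at hfxy
  have hbound : ∑ z ∈ (E.erase x).erase y, (c3 a U x y z - 5 - tr a x y z) ≤
      ∑ z ∈ (E.erase x).erase y, (∑ w ∈ E, cyc a x z w - 2) := by
    refine Finset.sum_le_sum fun z hz => ?_
    have hcz := hgz z hz
    simp only [Finset.mem_erase] at hz
    have hxz : x ≠ z := Ne.symm hz.2.1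
    have h1 := hf x hx z hz.2.2 hxz
    rw [hcz] at h1
    have h2 : c3 a U x z y - 5 - tr a x z y ≤
        ∑ w ∈ (E.erase x).erase z, (c3 a U x z w - 5 - tr a x z w) := by
      refine Finset.single_le_sum (f := fun w => c3 a U x z w - 5 - tr a x z w) (fun w hw => ?_)
        (Finset.mem_erase.2 ⟨Ne.symm hz.1, Finset.mem_erase.2 ⟨hyx, hy⟩⟩)
      simp only [Finset.mem_erase] at hw
      exact hd0 x hx z hz.2.2 w hw.2.2 hxz (Ne.symm hw.2.1) (Ne.symm hw.1)
    have h3 : c3 a U x y z = c3 a U x z y := by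
      unfold c3
      refine Finset.sum_congr rfl fun u _ => by ring
    have h4 : tr a x y z = tr a x z y := by unfold tr; ring
    rw [h3, h4]
    linarith
  have hcard : ((E.erase x).erase y).card = 9 := by
    rw [Finset.card_erase_of_mem (Finset.mem_erase.2 ⟨hyx, hy⟩),
      Finset.card_erase_of_mem hx, c.hE]
  have htot := sum_cyc E c.t c.hE c.hin c.hout hx
  have hxx : ∑ z ∈ E, cyc a x x z = 0 := by
    refine Finset.sum_eq_zero fun z _ => ?_
    unfold cyc; rw [c.t.z]; 
    rcases eq_or_ne x z with e | e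
    · subst e; rw [c.t.z]; ring
    · have := c.t.o x z e
      ring
  have hR : ∑ z ∈ (E.erase x).erase y, (∑ w ∈ E, cyc a x z w - 2) =
      30 - ∑ w ∈ E, cyc a x y w - 18 := by
    rw [Finset.sum_sub_distrib,
      sum_two (E := E) (fun z => ∑ w ∈ E, cyc a x z w) hx hy (Ne.symm hyx), htot, hxx]
    simp [hcard]
  rw [hfxy, hR] at hbound
  have hnn : 0 ≤ ∑ z ∈ E, cyc a x y z := by
    refine Finset.sum_nonneg fun z _ => ?_
    unfold cyc
    have := c.t.nonneg
    exact add_nonneg (mul_nonneg (mul_nonneg (this _ _) (this _ _)) (this _ _))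
      (mul_nonneg (mul_nonneg (this _ _) (this _ _)) (this _ _))
  norm_num at hbound
  linarith

end key

end Pool.Agent.Schutte
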