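import Pool.Agent.Schutte.Defs

/-!
The quadratic residue tournament on 67 vertices has property `S_4`.
-/

set_option linter.unusedVariables false

namespace Pool.Agent.Schutte.Paley

def qmask : ℕ := 61808106872519771730

def masks : List ℕ := [85765845717156641196, 23957738844636869465, 47915477689273738930, 95830955378547477860, 44087958167418542793, 88175916334837085586, 28777880079997758245, 57555760159995516490, 115111520319991032980, 82649088050305653033, 17724223510934893139, 35448447021869786278, 70896894043739572556, 141793788087479145112, 136013623585281877297, 124453294580887341667, 101332636572098270407, 55091320554520127887, 110182641109040255774, 72791329628404098621, 145582659256808197242, 143591365923939981557, 139608779258203550187, 131643605926730687447, 115713259263784961967, 83852565937893511007, 20131179286110609087, 40262358572221218174, 80524717144442436348, 13475481699208459769, 26950963398416919538, 53901926796833839076, 107803853593667678152, 68033754597658943377, 136067509195317886754, 124561065800959360581, 101548179012242308235, 55522405434808203543, 111044810869616407086, 74515669149556401245,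 1457385709436389563, 2914771418872779126, 5829542837745558252, 11659085675491116504, 23318171350982233008, 46636342701964466016, 93272685403928932032, 38971418218181451137, 77942836436362902274, 8311720283049391621, 16623440566098783242, 33246881132197566484, 66493762264395132968, 132987524528790265936, 118401096467904118945, 89228240346131824963, 30882528102587236999, 61765056205174473998, 123530112410348947996, 99486272231021483065, 51398591872366553203, 102797183744733106406, 58020414899789799885, 116040829799579599770, 84507707009482786613, 21441461429289160299, 42882922858578320598]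

def isQ (d : Fin 67) : Bool := Nat.testBit qmask d.val

def M0 : ℕ := 85765845717156641196

def check : Bool := masks.all fun x => masks.all fun y => masks.all fun z =>
  !(Nat.beq (Nat.land (Nat.land (Nat.land M0 x) y) z) 0)

set_option maxRecDepth 100000 in
theorem check_true : check = true := by decide +kernel

theorem link : ∀ d u : Fin 67, Nat.testBit (masks.getD d.val 0) u.val = isQ (d - u) := by
  decide +kernel

theorem isQ_neg : ∀ d : Fin 67, d ≠ 0 → isQ (-d) = !(isQ d) := by decide +kernel

theorem isQ_zero : isQ 0 = false := by decide +kernel

theorem mem_masks (d : Fin 67) : masks.getD d.val 0 ∈ masks := by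
  have h : d.val < masks.length := by
    have : masks.length = 67 := by decide +kernel
    rw [this]; exact d.isLt
  rw [List.getD_eq_getElem _ _ h]
  exact List.getElem_mem h

theorem check_spec (x y z : ℕ) (hx : x ∈ masks) (hy : y ∈ masks) (hz : z ∈ masks) :
    Nat.land (Nat.land (Nat.land M0 x) y) z ≠ 0 := by
  have h := check_true
  unfold check at h
  rw [List.all_eq_true] at h
  have h1 := h x hx
  rw [List.all_eq_true] at h1
  have h2 := h1 y hy
  rw [List.all_eq_true] at h2
  have h3 := h2 z hz
  intro h0
  rw [h0] at h3
  exact absurd h3 (by decide)

/-- The quadratic residue tournament of order 67. -/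
def paley67 : Tournament (Fin 67) where
  Adj v w := isQ (w - v) = true
  loopless v := by rw [sub_self, isQ_zero]; simp
  exactlyOne := by
    intro u v huv
    have h := isQ_neg (v - u) (sub_ne_zero.2 (Ne.symm huv))
    rw [neg_sub] at h
    rw [h]
    cases isQ (v - u) <;> simp

theorem paley67_hasS : paley67.HasS 4 := by
  intro S hS
  obtain ⟨w1, hw1⟩ : S.Nonempty := Finset.card_pos.1 (by omega)
  have hcard : (S.erase w1).card = 3 := by rw [Finset.card_erase_of_mem hw1]; omega
  obtain ⟨w2, w3, w4, -, -, -, hS'⟩ := Finset.card_eq_three.1 hcard
  have hne := check_spec _ _ _ (mem_masks (w2 - w1)) (mem_masks (w3 - w1)) (mem_masks (w4 - w1))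
  obtain ⟨u, hu⟩ := Nat.exists_testBit_of_ne_zero hne
  have key : ∀ x y : ℕ, Nat.testBit (Nat.land x y) u = (Nat.testBit x u && Nat.testBit y u) :=
    fun x y => Nat.testBit_land x y u
  rw [key, key, key] at hu
  simp only [Bool.and_eq_true] at hu
  obtain ⟨⟨⟨h1, h2⟩, h3⟩, h4⟩ := hu
  have hu67 : u < 67 := by
    by_contra hcon
    push Not at hcon
    have : M0 < 2 ^ u := lt_of_lt_of_le (by decide +kernel : M0 < 2 ^ 67)
      (Nat.pow_le_pow_right (by norm_num) hcon)
    rw [Nat.testBit_lt_two_pow this] at h1
    exact absurd h1 (by simp)
  have hM0 : M0 = masks.getD (0 : Fin 67).val 0 := by decide +kernel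
  rw [hM0] at h1
  have g1 := link 0 ⟨u, hu67⟩
  have g2 := link (w2 - w1) ⟨u, hu67⟩
  have g3 := link (w3 - w1) ⟨u, hu67⟩
  have g4 := link (w4 - w1) ⟨u, hu67⟩
  refine ⟨w1 + ⟨u, hu67⟩, ?_⟩
  intro w hw
  change isQ (w - (w1 + ⟨u, hu67⟩)) = true
  have hrw : w - (w1 + ⟨u, hu67⟩) = (w - w1) - ⟨u, hu67⟩ := by abel
  rw [hrw]
  by_cases e : w = w1
  · rw [e, sub_self, ← g1]; exact h1
  · have : w ∈ S.erase w1 := Finset.mem_erase.2 ⟨e, hw⟩
    rw [hS'] at this
    simp only [Finset.mem_insert, Finset.mem_singleton] at this
    rcases this with rfl | rfl | rfl
    · rw [← g2]; exact h2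
    · rw [← g3]; exact h3
    · rw [← g4]; exact h4

end Pool.Agent.Schutte.Paley
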